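import Pool.Agent.H38.Sgn.Defs

namespace Pool.Agent.H38.Sgn

open Polynomial

lemma mem_I_iff {δ x : ℝ} : x ∈ I δ ↔ (-1 ≤ x ∧ x ≤ -δ) ∨ (δ ≤ x ∧ x ≤ 1) := by
  simp [I, Set.mem_union, Set.mem_Icc]

lemma I_nonempty {δ : ℝ} (h1 : δ < 1) : (I δ).Nonempty :=
  ⟨1, mem_I_iff.2 (Or.inr ⟨h1.le, le_rfl⟩)⟩

lemma sgn_pos {x : ℝ} (h : 0 < x) : x / abs x = 1 := by
  rw [abs_of_pos h, div_self h.ne']

lemma sgn_neg {x : ℝ} (h : x < 0) : x / abs x = -1 := by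
  rw [abs_of_neg h, div_neg, div_self h.ne]

lemma err_le {δ e : ℝ} (h0 : 0 < δ) (h1 : δ < 1) {p : ℝ[X]}
    (hp : ∀ x, δ ≤ x → x ≤ 1 → |p.eval x - 1| ≤ e)
    (hn : ∀ x, -1 ≤ x → x ≤ -δ → |p.eval x + 1| ≤ e) : err δ p ≤ e := by
  unfold err
  refine csSup_le ((I_nonempty h1).image _) ?_
  rintro _ ⟨x, hx, rfl⟩
  rcases mem_I_iff.1 hx with h | h
  · have : x < 0 := by linarith [h.2]
    simp only [sgn_neg this]
    have := hn x h.1 h.2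
    rwa [sub_neg_eq_add]
  · have : 0 < x := by linarith [h.1]
    simp only [sgn_pos this]
    exact hp x h.1 h.2

lemma err_bddAbove (δ : ℝ) (p : ℝ[X]) :
    BddAbove ((fun x : ℝ => |p.eval x - x / abs x|) '' I δ) := by
  obtain ⟨M, hM⟩ := (isCompact_Icc (a := (-1:ℝ)) (b := max 1 (-δ))).bddAbove_image
    (f := fun x => |p.eval x|) (by fun_prop)
  obtain ⟨M', hM'⟩ := (isCompact_Icc (a := min (-1) δ) (b := (1:ℝ))).bddAbove_image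
    (f := fun x => |p.eval x|) (by fun_prop)
  refine ⟨max M M' + 1, ?_⟩
  rintro _ ⟨x, hx, rfl⟩
  have hs : |x / abs x| ≤ 1 := by
    rw [abs_div, abs_abs]
    exact div_self_le_one _
  have hx2 : |p.eval x| ≤ max M M' := by
    rcases mem_I_iff.1 hx with h | h
    · exact (hM ⟨x, ⟨h.1, h.2.trans (le_max_right _ _)⟩, rfl⟩).trans (le_max_left _ _)
    · exact (hM' ⟨x, ⟨(min_le_right _ _).trans h.1, h.2⟩, rfl⟩).trans (le_max_right _ _)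
  calc |p.eval x - x / abs x| ≤ |p.eval x| + |x / abs x| := abs_sub _ _
    _ ≤ _ := by linarith

lemma le_err_pos {δ : ℝ} (h0 : 0 < δ) {p : ℝ[X]} {x : ℝ} (h : δ ≤ x) (h' : x ≤ 1) :
    |p.eval x - 1| ≤ err δ p := by
  have := le_csSup (err_bddAbove δ p) ⟨x, mem_I_iff.2 (Or.inr ⟨h, h'⟩), rfl⟩
  simp only [sgn_pos (h0.trans_le h)] at this
  exact this

lemma le_err_neg {δ : ℝ} (h0 : 0 < δ) {p : ℝ[X]} {x : ℝ} (h : -1 ≤ x) (h' : x ≤ -δ) :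
    |p.eval x + 1| ≤ err δ p := by
  have := le_csSup (err_bddAbove δ p) ⟨x, mem_I_iff.2 (Or.inl ⟨h, h'⟩), rfl⟩
  simp only [sgn_neg (show x < 0 by linarith), sub_neg_eq_add] at this
  exact this

lemma err_nonneg {δ : ℝ} (h0 : 0 < δ) (h1 : δ < 1) (p : ℝ[X]) : 0 ≤ err δ p :=
  (abs_nonneg _).trans (le_err_pos h0 (p := p) h1.le le_rfl)

lemma epsStar_le {δ : ℝ} (h0 : 0 < δ) (h1 : δ < 1) {m : ℕ} {p : ℝ[X]} (hp : Prog m p) :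
    epsStar δ m ≤ err δ p :=
  csInf_le ⟨0, by rintro _ ⟨q, -, rfl⟩; exact err_nonneg h0 h1 q⟩ ⟨p, hp, rfl⟩

lemma epsComp_le {δ : ℝ} (h0 : 0 < δ) (h1 : δ < 1) {T : ℕ} {p : ℝ[X]} (hp : Comp T p) :
    epsComp δ T ≤ err δ p :=
  csInf_le ⟨0, by rintro _ ⟨q, -, rfl⟩; exact err_nonneg h0 h1 q⟩ ⟨p, hp, rfl⟩

lemma le_epsComp {δ e : ℝ} {T : ℕ} (h : ∀ p, Comp T p → e ≤ err δ p) : e ≤ epsComp δ T := by
  refine le_csInf ⟨_, ⟨_, ⟨(fun _ => 0), (fun _ => 0), rfl⟩, rfl⟩⟩ ?_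
  rintro _ ⟨q, hq, rfl⟩
  exact h q hq

lemma prog_nonempty (m : ℕ) : ∃ p, Prog m p := by
  refine ⟨_, fun k => if k = 0 then 1 else if k = 1 then X else 0, fun _ _ => 0, fun _ _ => 0,
    fun _ => 0, by simp, by simp, ?_, rfl⟩
  intro k hk _
  have : k ≠ 0 := by omega
  simp [this]

lemma le_epsStar {δ e : ℝ} {m : ℕ} (h : ∀ p, Prog m p → e ≤ err δ p) : e ≤ epsStar δ m := by
  obtain ⟨p, hp⟩ := prog_nonempty m
  refine le_csInf ⟨_, ⟨p, hp, rfl⟩⟩ ?_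
  rintro _ ⟨q, hq, rfl⟩
  exact h q hq

end Pool.Agent.H38.Sgn
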