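import Pool.Agent.H38.Sgn.Basic

/-! Compositions of `T` odd cubics have error at least `κ ^ (2 ^ T)` on `I δ`. -/

namespace Pool.Agent.H38.Sgn

open Polynomial

lemma cubic_mid {a b α β : ℝ} (ha : 0 < a) (hab : a < b)
    {w : ℝ} (hwa : w ≤ α * a + β * a ^ 3) (hwb : w ≤ α * b + β * b ^ 3) (hw : 0 < w) :
    w * (1 + 3 * (b - a) ^ 2 / (8 * (a * b))) ≤
      α * ((a + b) / 2) + β * ((a + b) / 2) ^ 3 := by
  have hb : 0 < b := ha.trans hab
  set m := (a + b) / 2 with hm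
  have hm0 : 0 < m := by rw [hm]; linarith
  have h1 : (α * m + β * m ^ 3) * ((b ^ 2 - a ^ 2) * (a * b)) =
      m * ((b ^ 2 - m ^ 2) * b * (α * a + β * a ^ 3) +
        (m ^ 2 - a ^ 2) * a * (α * b + β * b ^ 3)) := by ring
  have hb2 : 0 ≤ b ^ 2 - m ^ 2 := by rw [hm]; nlinarith
  have ha2 : 0 ≤ m ^ 2 - a ^ 2 := by rw [hm]; nlinarith
  have h2 : m * ((b ^ 2 - m ^ 2) * b * w + (m ^ 2 - a ^ 2) * a * w) ≤
      (α * m + β * m ^ 3) * ((b ^ 2 - a ^ 2) * (a * b)) := by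
    rw [h1]
    apply mul_le_mul_of_nonneg_left _ hm0.le
    apply add_le_add
    · exact mul_le_mul_of_nonneg_left hwa (mul_nonneg hb2 hb.le)
    · exact mul_le_mul_of_nonneg_left hwb (mul_nonneg ha2 ha.le)
  have hpos : 0 < (b ^ 2 - a ^ 2) * (a * b) := by
    apply mul_pos _ (mul_pos ha hb)
    nlinarith
  have h3 : w * (1 + 3 * (b - a) ^ 2 / (8 * (a * b))) * ((b ^ 2 - a ^ 2) * (a * b)) =
      m * ((b ^ 2 - m ^ 2) * b * w + (m ^ 2 - a ^ 2) * a * w) := by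
    have hne : a * b ≠ 0 := (mul_pos ha hb).ne'
    have : w * (1 + 3 * (b - a) ^ 2 / (8 * (a * b))) * ((b ^ 2 - a ^ 2) * (a * b)) =
      w * (b ^ 2 - a ^ 2) * (a * b + 3 * (b - a) ^ 2 / 8) := by
      field_simp
    rw [this, hm]
    ring
  rw [← h3] at h2
  exact le_of_mul_le_mul_right h2 hpos

/-- One step: the relative oscillation at most squares. -/
lemma ratio_step {δ : ℝ} {v : ℝ → ℝ} (hv : ContinuousOn v (Set.Icc δ 1))
    (hpos : ∀ x ∈ Set.Icc δ 1, 0 < v x) {α β : ℝ}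
    (hq : ∀ x ∈ Set.Icc δ 1, α * v x + β * v x ^ 3 ≠ 0)
    {s : ℝ} (hs0 : 0 < s) (hs1 : s ≤ 1)
    {x y : ℝ} (hx : x ∈ Set.Icc δ 1) (hy : y ∈ Set.Icc δ 1) (hr : (1 + s) * v y ≤ v x) :
    ∃ x' ∈ Set.Icc δ 1, ∃ y' ∈ Set.Icc δ 1,
      (1 + 3 / 16 * s ^ 2) * |α * v y' + β * v y' ^ 3| ≤ |α * v x' + β * v x' ^ 3| := by
  have hcon : IsPreconnected (Set.Icc δ 1) := isPreconnected_Icc
  have hvy := hpos y hy
  have hvx := hpos x hx
  have hlt : v y < v x := by nlinarith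
  obtain ⟨z, hz, hzv⟩ : ∃ z ∈ Set.Icc δ 1, v z = (v y + v x) / 2 := by
    have := hcon.intermediate_value hy hx hv
      (show (v y + v x) / 2 ∈ Set.Icc (v y) (v x) by constructor <;> linarith)
    obtain ⟨z, hz, hzz⟩ := this
    exact ⟨z, hz, hzz⟩
  have hqc : ContinuousOn (fun x => α * v x + β * v x ^ 3) (Set.Icc δ 1) := by fun_prop
  -- constant sign
  have hsign : (∀ x ∈ Set.Icc δ 1, 0 < α * v x + β * v x ^ 3) ∨
      (∀ x ∈ Set.Icc δ 1, α * v x + β * v x ^ 3 < 0) := by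
    by_contra hcon2
    push Not at hcon2
    obtain ⟨⟨p, hp, hp'⟩, ⟨q, hq1, hq'⟩⟩ := hcon2
    have := hcon.intermediate_value hp hq1 hqc ⟨hp', hq'⟩
    obtain ⟨w, hw, hw0⟩ := this
    exact hq w hw hw0
  have hR : 3 / 16 * s ^ 2 ≤ 3 * (v x - v y) ^ 2 / (8 * (v y * v x)) := by
    rw [le_div_iff₀ (by positivity)]
    -- (v x - v y)^2 / (v x v y) ≥ s^2/(1+s) ≥ s^2/2
    have h1 : (v x - (1 + s) * v y) * ((1 + s) * v x - v y) ≥ 0 := by
      apply mul_nonneg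
      · linarith
      · nlinarith
    have h2 : s ^ 2 * (v y * v x) ≤ (1 + s) * (v x - v y) ^ 2 := by nlinarith
    have h3 : (1 + s) * (v x - v y) ^ 2 ≤ 2 * (v x - v y) ^ 2 := by
      apply mul_le_mul_of_nonneg_right _ (sq_nonneg _)
      linarith
    nlinarith
  have hfin : ∀ {α' β' w : ℝ}, 0 < w → w ≤ α' * v y + β' * v y ^ 3 →
      w ≤ α' * v x + β' * v x ^ 3 →
      (1 + 3 / 16 * s ^ 2) * w ≤ α' * v z + β' * v z ^ 3 := by
    intro α' β' w hw h1 h2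
    have := cubic_mid hvy hlt h1 h2 hw
    rw [hzv]
    refine le_trans ?_ this
    rw [mul_comm]
    apply mul_le_mul_of_nonneg_left _ hw.le
    linarith
  rcases hsign with hS | hS
  · rcases le_total (α * v y + β * v y ^ 3) (α * v x + β * v x ^ 3) with hle | hle
    · refine ⟨z, hz, y, hy, ?_⟩
      rw [abs_of_pos (hS y hy), abs_of_pos (hS z hz)]
      exact hfin (hS y hy) le_rfl hle
    · refine ⟨z, hz, x, hx, ?_⟩
      rw [abs_of_pos (hS x hx), abs_of_pos (hS z hz)]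
      exact hfin (hS x hx) hle le_rfl
  · have hneg : ∀ u ∈ Set.Icc δ 1, |α * v u + β * v u ^ 3| = (-α) * v u + (-β) * v u ^ 3 := by
      intro u hu
      rw [abs_of_neg (hS u hu)]; ring
    have hpos' : ∀ u ∈ Set.Icc δ 1, 0 < (-α) * v u + (-β) * v u ^ 3 := by
      intro u hu
      have := hS u hu
      linarith
    rcases le_total ((-α) * v y + (-β) * v y ^ 3) ((-α) * v x + (-β) * v x ^ 3) with hle | hle
    · refine ⟨z, hz, y, hy, ?_⟩
      rw [hneg y hy, hneg z hz]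
      exact hfin (hpos' y hy) le_rfl hle
    · refine ⟨z, hz, x, hx, ?_⟩
      rw [hneg x hx, hneg z hz]
      exact hfin (hpos' x hx) hle le_rfl

lemma cubics_eval_succ (a b : ℕ → ℝ) (T : ℕ) (x : ℝ) :
    (cubics a b (T + 1)).eval x =
      a T * (cubics a b T).eval x + b T * (cubics a b T).eval x ^ 3 := by
  simp [cubics]

lemma abs_odd (α β u : ℝ) : |α * u + β * u ^ 3| = |α * |u| + β * |u| ^ 3| := by
  rcases abs_cases u with ⟨h, -⟩ | ⟨h, -⟩
  · rw [h]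
  · rw [h]
    have : α * (-u) + β * (-u) ^ 3 = -(α * u + β * u ^ 3) := by ring
    rw [this, abs_neg]

lemma cubics_ne_zero {a b : ℕ → ℝ} {x : ℝ} {T : ℕ} (h : (cubics a b T).eval x ≠ 0) :
    ∀ t ≤ T, (cubics a b t).eval x ≠ 0 := by
  induction T with
  | zero =>
    intro t ht
    have : t = 0 := by omega
    rwa [this]
  | succ T ih =>
    intro t ht
    rcases Nat.lt_or_ge t (T + 1) with hlt | hge
    · refine ih ?_ t (by omega)
      intro h0
      apply h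
      rw [cubics_eval_succ, h0]
      ring
    · have : t = T + 1 := by omega
      rwa [this]

lemma cubics_ratio {δ κ : ℝ} (hδ : 0 < δ) (h1 : δ < 1) (hκ0 : 0 < κ) (hκ : κ ≤ 3 / 16 * (1 - δ))
    {a b : ℕ → ℝ} {T : ℕ} (hne : ∀ x ∈ Set.Icc δ 1, (cubics a b T).eval x ≠ 0) :
    ∀ t ≤ T, ∃ x ∈ Set.Icc δ 1, ∃ y ∈ Set.Icc δ 1,
      (1 + 16 / 3 * κ ^ (2 ^ t)) * |(cubics a b t).eval y| ≤ |(cubics a b t).eval x| := by
  intro t
  induction t with
  | zero =>
    intro _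
    refine ⟨1, ⟨h1.le, le_rfl⟩, δ, ⟨le_rfl, h1.le⟩, ?_⟩
    simp only [cubics, eval_X, pow_zero, pow_one, abs_one, abs_of_pos hδ]
    nlinarith
  | succ t ih =>
    intro ht
    obtain ⟨x, hx, y, hy, hr⟩ := ih (by omega)
    have hk1 : κ ≤ 3 / 16 := by linarith
    have hpw : κ ^ (2 ^ t) ≤ 3 / 16 := by
      calc κ ^ (2 ^ t) ≤ κ ^ 1 := by
            apply pow_le_pow_of_le_one hκ0.le (by linarith)
            exact Nat.one_le_two_pow
        _ ≤ 3 / 16 := by rw [pow_one]; exact hk1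
    have hstep := ratio_step (δ := δ) (v := fun x => |(cubics a b t).eval x|)
      (by fun_prop)
      (fun x hx => abs_pos.2 (cubics_ne_zero (hne x hx) t (by omega)))
      (α := a t) (β := b t)
      (by
        intro x hx
        have := cubics_ne_zero (hne x hx) (t + 1) ht
        rw [cubics_eval_succ] at this
        rw [← abs_ne_zero] at this ⊢
        rwa [← abs_odd])
      (s := 16 / 3 * κ ^ (2 ^ t)) (by positivity) (by linarith) hx hy hr
    obtain ⟨x', hx', y', hy', hr'⟩ := hstep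
    refine ⟨x', hx', y', hy', ?_⟩
    rw [cubics_eval_succ, cubics_eval_succ, abs_odd (a t) (b t) (eval x' _),
      abs_odd (a t) (b t) (eval y' _)]
    have : 3 / 16 * (16 / 3 * κ ^ (2 ^ t)) ^ 2 = 16 / 3 * κ ^ (2 ^ (t + 1)) := by
      rw [pow_succ 2 t, pow_mul]; ring
    rw [this] at hr'
    exact hr'

lemma epsComp_lower {δ : ℝ} (h0 : 0 < δ) (h1 : δ < 1) (T : ℕ) :
    (3 / 16 * (1 - δ)) ^ (2 ^ T) ≤ epsComp δ T := by
  refine le_epsComp fun p hp => ?_
  obtain ⟨a, b, rfl⟩ := hp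
  set e := err δ (cubics a b T) with he
  set κ := 3 / 16 * (1 - δ) with hκ
  have hκ0 : 0 < κ := by rw [hκ]; linarith
  have hκ1 : κ ≤ 3 / 16 := by rw [hκ]; linarith
  have hpw : κ ^ (2 ^ T) ≤ 3 / 16 := by
    calc κ ^ (2 ^ T) ≤ κ ^ 1 := by
          apply pow_le_pow_of_le_one hκ0.le (by linarith)
          exact Nat.one_le_two_pow
      _ ≤ 3 / 16 := by rw [pow_one]; exact hκ1
  rcases le_or_gt 1 e with h | h
  · linarith
  have hb : ∀ x ∈ Set.Icc δ 1, 1 - e ≤ (cubics a b T).eval x ∧ (cubics a b T).eval x ≤ 1 + e := by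
    intro x hx
    have := abs_le.1 (le_err_pos h0 (p := cubics a b T) hx.1 hx.2)
    constructor <;> linarith [this.1, this.2]
  have hne : ∀ x ∈ Set.Icc δ 1, (cubics a b T).eval x ≠ 0 := by
    intro x hx
    have := (hb x hx).1
    intro h0
    linarith
  obtain ⟨x, hx, y, hy, hr⟩ := cubics_ratio h0 h1 hκ0 le_rfl hne T le_rfl
  rw [abs_of_pos (by linarith [(hb y hy).1]), abs_of_pos (by linarith [(hb x hx).1])] at hr
  have h2 := (hb x hx).2
  have h3 := (hb y hy).1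
  have hpow : 0 < κ ^ (2 ^ T) := by positivity
  have h4 : (1 + 16 / 3 * κ ^ (2 ^ T)) * (1 - e) ≤ 1 + e :=
    (mul_le_mul_of_nonneg_left h3 (by positivity)).trans (hr.trans h2)
  have he0 : 0 ≤ e := err_nonneg h0 h1 _
  nlinarith

end Pool.Agent.H38.Sgn
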