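import Pool.Agent.H38.Sgn.Reach
import Pool.Agent.H38.Sgn.CompLower

/-! Upper bounds: Newton-Schulz iteration and iteration of a block with high contact. -/

namespace Pool.Agent.H38.Sgn

open Polynomial

/-- The Newton-Schulz iterates. -/
noncomputable def NS (T : ℕ) : ℝ[X] := cubics (fun _ => 3 / 2) (fun _ => -1 / 2) T

lemma NS_eval_zero (x : ℝ) : (NS 0).eval x = x := by simp [NS, cubics]

lemma NS_eval_succ (T : ℕ) (x : ℝ) :
    (NS (T + 1)).eval x = 3 / 2 * (NS T).eval x + -1 / 2 * (NS T).eval x ^ 3 :=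
  cubics_eval_succ _ _ _ _

lemma NS_odd (T : ℕ) (x : ℝ) : (NS T).eval (-x) = -(NS T).eval x := by
  induction T with
  | zero => simp [NS_eval_zero]
  | succ T ih => rw [NS_eval_succ, NS_eval_succ, ih]; ring

lemma NS_bounds {δ : ℝ} (h0 : 0 < δ) {x : ℝ} (hx : δ ≤ x) (hx' : x ≤ 1) (T : ℕ) :
    δ ≤ (NS T).eval x ∧ (NS T).eval x ≤ 1 := by
  induction T with
  | zero => rw [NS_eval_zero]; exact ⟨hx, hx'⟩
  | succ T ih =>
    rw [NS_eval_succ]
    obtain ⟨h1, h2⟩ := ih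
    set c := (NS T).eval x
    have hc : 0 < c := h0.trans_le h1
    constructor
    · nlinarith [mul_nonneg hc.le (mul_nonneg (sub_nonneg.2 h2) (by linarith : (0:ℝ) ≤ 1 + c))]
    · nlinarith [mul_nonneg (sq_nonneg (1 - c)) (by linarith : (0:ℝ) ≤ 2 + c)]

lemma NS_slow {δ : ℝ} (h0 : 0 < δ) {x : ℝ} (hx : δ ≤ x) (hx' : x ≤ 1) (T : ℕ) :
    1 - (NS T).eval x ≤ (1 - δ / 2) ^ T * (1 - δ) := by
  have hδ1 : δ ≤ 1 := hx.trans hx'
  induction T with
  | zero => rw [NS_eval_zero]; simp; linarith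
  | succ T ih =>
    obtain ⟨h1, h2⟩ := NS_bounds h0 hx hx' T
    rw [NS_eval_succ]
    set c := (NS T).eval x
    have hc : 0 < c := h0.trans_le h1
    have : 1 - (3 / 2 * c + -1 / 2 * c ^ 3) = (1 - c * (1 + c) / 2) * (1 - c) := by ring
    rw [this, pow_succ, mul_comm ((1 - δ / 2) ^ T), mul_assoc]
    apply mul_le_mul _ ih (by linarith) (by linarith)
    nlinarith

lemma NS_fast {δ : ℝ} (h0 : 0 < δ) {x : ℝ} (hx : δ ≤ x) (hx' : x ≤ 1) (T : ℕ) :
    1 - (NS (T + 1)).eval x ≤ 3 / 2 * (1 - (NS T).eval x) ^ 2 := by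
  obtain ⟨h1, h2⟩ := NS_bounds h0 hx hx' T
  rw [NS_eval_succ]
  set c := (NS T).eval x
  nlinarith [mul_nonneg (sq_nonneg (1 - c)) (sub_nonneg.2 h2)]

lemma err_NS_le {δ e : ℝ} (h0 : 0 < δ) (h1 : δ < 1) {T : ℕ}
    (h : ∀ x, δ ≤ x → x ≤ 1 → 1 - (NS T).eval x ≤ e) : err δ (NS T) ≤ e := by
  apply err_le h0 h1
  · intro x hx hx'
    have := NS_bounds h0 hx hx' T
    rw [abs_of_nonpos (by linarith [this.2])]
    have := h x hx hx'
    linarith
  · intro x hx hx'
    have h3 := NS_bounds h0 (x := -x) (by linarith) (by linarith) T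
    have h4 := h (-x) (by linarith) (by linarith)
    rw [NS_odd] at h3 h4
    rw [abs_of_nonneg (by linarith [h3.2])]
    linarith

lemma NS_small {δ e : ℝ} (h0 : 0 < δ) (h1 : δ < 1) (he : 0 < e) :
    ∃ T, ∀ x, δ ≤ x → x ≤ 1 → 1 - (NS T).eval x ≤ e := by
  obtain ⟨T, hT⟩ := exists_pow_lt_of_lt_one he (show 1 - δ / 2 < 1 by linarith)
  refine ⟨T, fun x hx hx' => (NS_slow h0 hx hx' T).trans ?_⟩
  have : 0 ≤ (1 - δ / 2) ^ T := pow_nonneg (by linarith) _
  nlinarith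

lemma epsComp_upper {δ : ℝ} (h0 : 0 < δ) (h1 : δ < 1) :
    ∃ θ : ℝ, 0 < θ ∧ θ < 1 ∧ ∀ T, epsComp δ T ≤ θ ^ (2 ^ T) := by
  obtain ⟨T0, hT0⟩ := NS_small h0 h1 (show (0:ℝ) < 1 / 3 by norm_num)
  set M : ℝ := max (1 / 2) (1 - δ) with hM
  have hM0 : 0 < M := lt_max_of_lt_left (by norm_num)
  have hM1 : M < 1 := max_lt (by norm_num) (by linarith)
  set θ : ℝ := M ^ ((1 : ℝ) / (2 ^ T0 : ℕ)) with hθ
  have hθ0 : 0 < θ := Real.rpow_pos_of_pos hM0 _
  have hθ1 : θ < 1 := Real.rpow_lt_one hM0.le hM1 (by positivity)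
  have hθM : θ ^ (2 ^ T0) = M := by
    rw [hθ, ← Real.rpow_natCast, ← Real.rpow_mul hM0.le, one_div,
      inv_mul_cancel₀ (by positivity), Real.rpow_one]
  refine ⟨θ, hθ0, hθ1, fun T => ?_⟩
  refine (epsComp_le h0 h1 (p := NS T) ⟨_, _, rfl⟩).trans (err_NS_le h0 h1 fun x hx hx' => ?_)
  rcases Nat.lt_or_ge T T0 with hlt | hge
  · calc 1 - (NS T).eval x ≤ 1 - δ := by linarith [(NS_bounds h0 hx hx' T).1]
      _ ≤ M := le_max_right _ _
      _ = θ ^ (2 ^ T0) := hθM.symm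
      _ ≤ θ ^ (2 ^ T) := pow_le_pow_of_le_one hθ0.le hθ1.le
          (Nat.pow_le_pow_right (by norm_num) hlt.le)
  · obtain ⟨k, rfl⟩ := Nat.exists_eq_add_of_le hge
    have key : ∀ k, 3 / 2 * (1 - (NS (T0 + k)).eval x) ≤ (1 / 2) ^ (2 ^ k) := by
      intro k
      induction k with
      | zero =>
        have := hT0 x hx hx'
        norm_num
        linarith
      | succ k ih =>
        have h3 := NS_fast h0 hx hx' (T0 + k)
        have h4 := (NS_bounds h0 hx hx' (T0 + k)).2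
        calc 3 / 2 * (1 - (NS (T0 + (k + 1))).eval x)
            ≤ (3 / 2 * (1 - (NS (T0 + k)).eval x)) ^ 2 := by
              rw [← add_assoc]; nlinarith
          _ ≤ ((1 / 2) ^ (2 ^ k)) ^ 2 := by
              apply pow_le_pow_left₀ _ ih
              linarith
          _ = _ := by rw [← pow_mul, ← pow_succ]
    have h5 := key k
    have h6 := (NS_bounds h0 hx hx' (T0 + k)).2
    calc 1 - (NS (T0 + k)).eval x ≤ 3 / 2 * (1 - (NS (T0 + k)).eval x) := by linarith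
      _ ≤ (1 / 2) ^ (2 ^ k) := h5
      _ ≤ M ^ (2 ^ k) := by
          apply pow_le_pow_left₀ (by norm_num) (le_max_left _ _)
      _ = θ ^ (2 ^ (T0 + k)) := by rw [pow_add, pow_mul, hθM]

/-! ### Blocks -/

lemma preach_cubic (a b : ℝ) : PReach 2 (C a * X + C b * X ^ 3) := by
  have h1 := Reach.base.step Reach.base.X_mem Reach.base.X_mem
  have hX2 : (X * X : ℝ[X]) ∈ Submodule.span ℝ {1, X} ⊔ Submodule.span ℝ {(X * X : ℝ[X])} :=
    Submodule.mem_sup_right (Submodule.mem_span_singleton_self _)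
  have h2 := h1.step hX2 h1.X_mem
  refine ⟨_, h2, Submodule.add_mem _ (C_mul_mem _ h2.X_mem) (C_mul_mem _ ?_)⟩
  have : (X ^ 3 : ℝ[X]) = X * X * X := by ring
  rw [this]
  exact Submodule.mem_sup_right (Submodule.mem_span_singleton_self _)

lemma preach_NS (T : ℕ) : PReach (2 * T) (NS T) := by
  induction T with
  | zero => exact preach_X
  | succ T ih => exact ih.comp (preach_cubic _ _)

lemma contact_bound {r : ℕ} {E : ℝ[X]} {c d : ℝ} (h : (X - C c) ^ r ∣ E - C d) :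
    ∃ M : ℝ, 1 ≤ M ∧ ∀ x, |x - c| ≤ 1 → |E.eval x - d| ≤ M * |x - c| ^ r := by
  obtain ⟨g, hg⟩ := h
  obtain ⟨M, hM⟩ := (isCompact_Icc (a := c - 1) (b := c + 1)).bddAbove_image
    (f := fun x => |g.eval x|) (by fun_prop)
  refine ⟨max M 1, le_max_right _ _, fun x hx => ?_⟩
  have h1 : E.eval x - d = (x - c) ^ r * g.eval x := by
    have := congrArg (fun p => eval x p) hg
    simpa using this
  rw [h1, abs_mul, abs_pow, mul_comm]
  apply mul_le_mul_of_nonneg_right _ (by positivity)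
  refine le_trans (hM ⟨x, ?_, rfl⟩) (le_max_left _ _)
  rw [abs_le] at hx
  constructor <;> linarith [hx.1, hx.2]

lemma block_iter {q r : ℕ} (hr : 2 ≤ r) {E : ℝ[X]} (hE : PReach q E)
    (h1 : (X - C 1) ^ r ∣ E - C 1) (h2 : (X - C (-1)) ^ r ∣ E - C (-1))
    {δ : ℝ} (h0 : 0 < δ) (hδ : δ < 1) :
    ∃ n0, ∀ k, epsStar δ (n0 + q * k) ≤ (1 / 2) ^ (r ^ k) := by
  obtain ⟨M1, hM1, hb1⟩ := contact_bound h1
  obtain ⟨M2, hM2, hb2⟩ := contact_bound h2
  set M := max M1 M2 with hM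
  have hM1' : 1 ≤ M := hM1.trans (le_max_left _ _)
  have hM0 : 0 < M := by linarith
  obtain ⟨T0, hT0⟩ := NS_small h0 hδ (show (0:ℝ) < 1 / (2 * M) by positivity)
  -- the iterates
  let G : ℕ → ℝ[X] := fun k => (fun p => E.comp p)^[k] (NS T0)
  have hG0 : G 0 = NS T0 := rfl
  have hGs : ∀ k, G (k + 1) = E.comp (G k) := fun k => Function.iterate_succ_apply' _ _ _
  have hGP : ∀ k, PReach (2 * T0 + q * k) (G k) := by
    intro k
    induction k with
    | zero => exact preach_NS T0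
    | succ k ih =>
      rw [hGs, mul_add, mul_one, ← add_assoc]
      exact ih.comp hE
  have hinv : ∀ k, (1 / 2 : ℝ) ^ (r ^ k) ≤ 1 := fun k => pow_le_one₀ (by norm_num) (by norm_num)
  have step : ∀ {d v : ℝ} {k : ℕ}, (∀ x, |x - d| ≤ 1 → |E.eval x - d| ≤ M * |x - d| ^ r) →
      M * |v - d| ≤ (1 / 2) ^ (r ^ k) → M * |E.eval v - d| ≤ (1 / 2) ^ (r ^ (k + 1)) := by
    intro d v k hb hv
    have h3 : |v - d| ≤ 1 := by
      have : |v - d| ≤ M * |v - d| := le_mul_of_one_le_left (abs_nonneg _) hM1'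
      exact this.trans (hv.trans (hinv k))
    have h4 := hb v h3
    calc M * |E.eval v - d| ≤ M * (M * |v - d| ^ r) := mul_le_mul_of_nonneg_left h4 hM0.le
      _ = M ^ 2 * |v - d| ^ r := by ring
      _ ≤ M ^ r * |v - d| ^ r := by
          apply mul_le_mul_of_nonneg_right (pow_le_pow_right₀ hM1' hr) (by positivity)
      _ = (M * |v - d|) ^ r := by rw [mul_pow]
      _ ≤ ((1 / 2) ^ (r ^ k)) ^ r := pow_le_pow_left₀ (by positivity) hv _
      _ = _ := by rw [← pow_mul, ← pow_succ]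
  have hb1' : ∀ x, |x - 1| ≤ 1 → |E.eval x - 1| ≤ M * |x - 1| ^ r := fun x hx =>
    (hb1 x hx).trans (mul_le_mul_of_nonneg_right (le_max_left _ _) (by positivity))
  have hb2' : ∀ x, |x - (-1)| ≤ 1 → |E.eval x - (-1)| ≤ M * |x - (-1)| ^ r := fun x hx =>
    (hb2 x hx).trans (mul_le_mul_of_nonneg_right (le_max_right _ _) (by positivity))
  have hpos : ∀ k x, δ ≤ x → x ≤ 1 → M * |(G k).eval x - 1| ≤ (1 / 2) ^ (r ^ k) := by
    intro k x hx hx'
    induction k with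
    | zero =>
      have h3 := hT0 x hx hx'
      have h4 := (NS_bounds h0 hx hx' T0).2
      rw [hG0, abs_of_nonpos (by linarith), pow_zero, pow_one]
      rw [le_div_iff₀ (by positivity)] at h3
      linarith
    | succ k ih =>
      rw [hGs, eval_comp]
      exact step hb1' ih
  have hneg : ∀ k x, -1 ≤ x → x ≤ -δ → M * |(G k).eval x - (-1)| ≤ (1 / 2) ^ (r ^ k) := by
    intro k x hx hx'
    induction k with
    | zero =>
      have h3 := hT0 (-x) (by linarith) (by linarith)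
      have h4 := (NS_bounds h0 (x := -x) (by linarith) (by linarith) T0).2
      rw [NS_odd] at h3 h4
      rw [hG0, abs_of_nonneg (by linarith), pow_zero, pow_one]
      rw [le_div_iff₀ (by positivity)] at h3
      linarith
    | succ k ih =>
      rw [hGs, eval_comp]
      exact step hb2' ih
  refine ⟨2 * T0, fun k => ?_⟩
  refine (epsStar_le h0 hδ (hGP k).prog).trans (err_le h0 hδ ?_ ?_)
  · intro x hx hx'
    exact (le_mul_of_one_le_left (abs_nonneg _) hM1').trans (hpos k x hx hx')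
  · intro x hx hx'
    have := (le_mul_of_one_le_left (abs_nonneg _) hM1').trans (hneg k x hx hx')
    rwa [sub_neg_eq_add] at this

end Pool.Agent.H38.Sgn
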