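import Pool.Agent.H38.Sgn.Numeric
import Pool.Agent.H38.Sgn.Upper

/-! A block with eight products and contact order `60` at `1` and `-1`. -/

namespace Pool.Agent.H38.Sgn

open Polynomial

lemma quad_pos_root {A B C : ℝ} (hA : 0 < A) (hC : C < 0) :
    ∃ u : ℝ, 0 < u ∧ A * u ^ 2 + B * u + C = 0 := by
  set D := B ^ 2 - 4 * A * C with hD
  have hAC : 0 < -(A * C) := by nlinarith
  have hD0 : B ^ 2 < D := by rw [hD]; nlinarith
  have hDpos : 0 ≤ D := (sq_nonneg B).trans hD0.le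
  have hs : Real.sqrt D ^ 2 = D := Real.sq_sqrt hDpos
  have hB : B < Real.sqrt D := by
    apply Real.lt_sqrt_of_sq_lt hD0
  refine ⟨(-B + Real.sqrt D) / (2 * A), div_pos (by linarith) (by linarith), ?_⟩
  field_simp
  nlinarith

section

noncomputable def g7 (t : ℝ) : ℝ := -3 - 1001 * t
noncomputable def g6 (t : ℝ) : ℝ := 15 / 2 + 10725 / 2 * t - 1 / 2 * (g7 t * g7 t)
noncomputable def g5 (t : ℝ) : ℝ := -10 - 11550 * t - g6 t * g7 t
noncomputable def g4 (t : ℝ) : ℝ := 15 / 2 + 25025 / 2 * t - g5 t * g7 t - 1 / 2 * (g6 t * g6 t)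
noncomputable def g3 (t : ℝ) : ℝ := -3 - 6825 * t - g4 t * g7 t - g5 t * g6 t
noncomputable def g2 (t : ℝ) : ℝ :=
  1 / 2 + 3003 / 2 * t - g3 t * g7 t - g4 t * g6 t - 1 / 2 * (g5 t * g5 t)
noncomputable def g1 (t : ℝ) : ℝ := -(g2 t * g7 t) - g3 t * g6 t - g4 t * g5 t
noncomputable def g0 (t : ℝ) : ℝ :=
  -(g1 t * g7 t) - g2 t * g6 t - g3 t * g5 t - 1 / 2 * (g4 t * g4 t)
noncomputable def gg (t : ℝ) : ℝ := g0 t * g7 t + g1 t * g6 t + g2 t * g5 t + g3 t * g4 t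

lemma cont7 : Continuous g7 := by unfold g7; fun_prop
lemma cont6 : Continuous g6 := by have := cont7; unfold g6; fun_prop
lemma cont5 : Continuous g5 := by have := cont7; have := cont6; unfold g5; fun_prop
lemma cont4 : Continuous g4 := by
  have := cont7; have := cont6; have := cont5; unfold g4; fun_prop
lemma cont3 : Continuous g3 := by
  have := cont7; have := cont6; have := cont5; have := cont4; unfold g3; fun_prop
lemma cont2 : Continuous g2 := by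
  have := cont7; have := cont6; have := cont5; have := cont4; have := cont3; unfold g2; fun_prop
lemma cont1 : Continuous g1 := by
  have := cont7; have := cont6; have := cont5; have := cont4; have := cont3; have := cont2
  unfold g1; fun_prop
lemma cont0 : Continuous g0 := by
  have := cont7; have := cont6; have := cont5; have := cont4; have := cont3; have := cont2
  have := cont1
  unfold g0; fun_prop
lemma contg : Continuous gg := by
  have := cont7; have := cont6; have := cont5; have := cont4; have := cont3; have := cont2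
  have := cont1; have := cont0
  unfold gg; fun_prop

lemma gg_left : gg (375637137512 / 1000000000000000) ≤ 0 := by
  norm_num [gg, g0, g1, g2, g3, g4, g5, g6, g7]

lemma gg_right : 0 ≤ gg (375637137513 / 1000000000000000) := by
  norm_num [gg, g0, g1, g2, g3, g4, g5, g6, g7]

lemma exists_t : ∃ t : ℝ, 375637137512 / 1000000000000000 ≤ t ∧
    t ≤ 375637137513 / 1000000000000000 ∧ gg t = 0 := by
  obtain ⟨t, ht, h⟩ := intermediate_value_Icc
    (show (375637137512 / 1000000000000000 : ℝ) ≤ 375637137513 / 1000000000000000 by norm_num)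
    contg.continuousOn (show (0:ℝ) ∈ Set.Icc _ _ from ⟨gg_left, gg_right⟩)
  exact ⟨t, ht.1, ht.2, h⟩

end

/-- The asymmetric block: four products, contact order 10 at `0` and 6 at `1`. -/
theorem exists_F : ∃ F : ℝ[X], PReach 4 F ∧ X ^ 10 ∣ F ∧ (X - C 1) ^ 6 ∣ F - 1 := by
  obtain ⟨t, ht1, ht2, hg⟩ := exists_t
  have ht0 : 0 < t := lt_of_lt_of_le (by norm_num) ht1
  obtain ⟨x7, ex7⟩ : ∃ x, x = g7 t := ⟨_, rfl⟩
  obtain ⟨x6, ex6⟩ : ∃ x, x = g6 t := ⟨_, rfl⟩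
  obtain ⟨x5, ex5⟩ : ∃ x, x = g5 t := ⟨_, rfl⟩
  obtain ⟨x4, ex4⟩ : ∃ x, x = g4 t := ⟨_, rfl⟩
  obtain ⟨x3, ex3⟩ : ∃ x, x = g3 t := ⟨_, rfl⟩
  obtain ⟨x2, ex2⟩ : ∃ x, x = g2 t := ⟨_, rfl⟩
  obtain ⟨x1, ex1⟩ : ∃ x, x = g1 t := ⟨_, rfl⟩
  obtain ⟨x0, ex0⟩ : ∃ x, x = g0 t := ⟨_, rfl⟩
  have h7 : x0 * x7 + x1 * x6 + x2 * x5 + x3 * x4 = 0 := by
    rw [gg, ← ex7, ← ex6, ← ex5, ← ex4, ← ex3, ← ex2, ← ex1, ← ex0] at hg
    exact hg
  rw [g0, ← ex7, ← ex6, ← ex5, ← ex4, ← ex3, ← ex2, ← ex1] at ex0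
  rw [g1, ← ex7, ← ex6, ← ex5, ← ex4, ← ex3, ← ex2] at ex1
  rw [g2, ← ex7, ← ex6, ← ex5, ← ex4, ← ex3] at ex2
  rw [g3, ← ex7, ← ex6, ← ex5, ← ex4] at ex3
  rw [g4, ← ex7, ← ex6, ← ex5] at ex4
  rw [g5, ← ex7, ← ex6] at ex5
  rw [g6, ← ex7] at ex6
  rw [g7] at ex7
  obtain ⟨hR6, hA, hp, hC0⟩ := numeric ht1 ht2 ex7 ex6 ex5 ex4 ex3 ex2 ex1 ex0 rfl rfl rfl rfl rfl
    rfl rfl
  set R6 : ℝ := 2 * (x0 * x6) + 2 * (x1 * x5) + 2 * (x2 * x4) + x3 * x3 with hR6d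
  set R5 : ℝ := 2 * (x0 * x5) + 2 * (x1 * x4) + 2 * (x2 * x3) with hR5d
  set p : ℝ := x6 - 1 / 4 * (x7 * x7) with hpd
  set q : ℝ := x5 - 1 / 2 * (p * x7) with hqd
  obtain ⟨R4, hR4⟩ : ∃ R, R = 2 * x0 * x4 + 2 * x1 * x3 + x2 ^ 2 := ⟨_, rfl⟩
  obtain ⟨R3, hR3⟩ : ∃ R, R = 2 * x0 * x3 + 2 * x1 * x2 := ⟨_, rfl⟩
  set s : ℝ := x7 / 2 with hs
  have hx7 : x7 = 2 * s := by rw [hs]; ring
  obtain ⟨u, hu, huq⟩ := quad_pos_root (A := R6 / 4 * (2 * R5 - 3 / 2 * (x7 * R6)))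
    (B := s * (R4 - p * R6 / 2 - (R5 - R6 * s) * s) - R3 + (p * (R5 - R6 * s) + R6 * q) / 2)
    (C := 1 / 2 * (x7 * (x4 - 1 / 4 * (p * p) - 1 / 2 * (q * x7))) - x3 + 1 / 2 * (p * q))
    (mul_pos (by linarith) hA) hC0
  obtain ⟨b, hb⟩ : ∃ b, b = (p + u * R6) / 2 := ⟨_, rfl⟩
  obtain ⟨c, hc⟩ : ∃ c, c = (q + u * (R5 - R6 * s)) / 2 := ⟨_, rfl⟩
  have key := block4 (p15 := -6 - 2002 * t) (p14 := 15 + 10725 * t) (p13 := -20 - 23100 * t)
    (p12 := 15 + 25025 * t) (p11 := -6 - 13650 * t) (p10 := 1 + 3003 * t)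
    (x7 := x7) (x6 := x6) (x5 := x5) (x4 := x4) (x3 := x3) (x2 := x2) (x1 := x1) (x0 := x0)
    (s := s) (p := p) (q := q) (u := u) (b := b) (c := c) (k := 1 / t)
    (by rw [ex7]; ring) (by rw [ex6]; ring) (by rw [ex5]; ring) (by rw [ex4]; ring)
    (by rw [ex3]; ring) (by rw [ex2]; ring) (by rw [ex1]; ring) (by rw [ex0]; ring) h7 hx7
    (by rw [hpd, hx7]; ring) hp.ne' (by rw [hqd, hx7]; ring) hu
    (by rw [hb, hR6d]; ring)
    (by
      have hq' : x5 = q + p * s := by rw [hqd, hx7]; ring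
      rw [hb, hc, hR5d, hq']; ring)
    (by
      rw [← hR4, ← hR3, hb, hc]
      rw [hx7] at huq
      linear_combination huq)
  refine ⟨_, key, ?_, ?_⟩
  · exact Dvd.dvd.mul_left (Dvd.intro _ rfl) _
  · refine ⟨C (1 / t) * X ^ 10 - (1 + 6 * X + 21 * X ^ 2 + 56 * X ^ 3 + 126 * X ^ 4 +
      252 * X ^ 5 + 462 * X ^ 6 + 792 * X ^ 7 + 1287 * X ^ 8 + 2002 * X ^ 9), ?_⟩
    refine Polynomial.funext fun y => ?_
    simp only [eval_sub, eval_mul, eval_C, eval_pow, eval_X, eval_add, eval_one, eval_ofNat]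
    field_simp
    ring

/-- The symmetric block in the `x` variable: eight products, contact order 60 at `±1`. -/
theorem exists_E : ∃ E : ℝ[X], PReach 8 E ∧ (X - C 1) ^ 60 ∣ E - C 1 ∧
    (X - C (-1)) ^ 60 ∣ E - C (-1) := by
  obtain ⟨F, hF, hF0, hF1⟩ := exists_F
  set L : ℝ[X] := C (-1) * X + C 1 with hL
  set G : ℝ[X] := C (-1) * F.comp L + C 1 with hG
  have hGP : PReach 4 G := by
    have h1 := (preach_linear (-1) 1).comp hF
    exact h1.affine (-1) 1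
  have hG0 : X ^ 6 ∣ G := by
    obtain ⟨g, hg⟩ := hF1
    have : G = -((F - 1).comp L) := by
      rw [hG, sub_comp, one_comp]
      simp only [map_neg, map_one]
      ring
    rw [this, hg, mul_comp, pow_comp, sub_comp, X_comp, C_comp]
    have h2 : L - C 1 = -X := by rw [hL]; simp
    rw [h2]
    have h3 : ((-X : ℝ[X])) ^ 6 = X ^ 6 := by ring
    rw [h3]
    exact (Dvd.intro _ rfl : X ^ 6 ∣ X ^ 6 * g.comp L).neg_right
  have hG1 : (X - C 1) ^ 10 ∣ G - 1 := by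
    obtain ⟨g, hg⟩ := hF0
    have : G - 1 = -(F.comp L) := by
      rw [hG]
      simp only [map_neg, map_one]
      ring
    rw [this, hg, mul_comp, pow_comp, X_comp]
    have h2 : L = -(X - C 1) := by rw [hL]; simp; ring
    have h3 : L ^ 10 = (X - C 1) ^ 10 := by rw [h2]; ring
    rw [h3]
    exact (Dvd.intro _ rfl : (X - C 1) ^ 10 ∣ (X - C 1) ^ 10 * g.comp L).neg_right
  set K : ℝ[X] := G.comp F with hK
  have hKP : PReach 8 K := hF.comp hGP
  have hK0 : X ^ 60 ∣ K := by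
    obtain ⟨g, hg⟩ := hG0
    rw [hK, hg, mul_comp, pow_comp, X_comp]
    have h1 : (X ^ 60 : ℝ[X]) = (X ^ 10) ^ 6 := by rw [← pow_mul]
    rw [h1]
    exact Dvd.dvd.mul_right (pow_dvd_pow_of_dvd hF0 6) _
  have hK1 : (X - C 1) ^ 60 ∣ K - 1 := by
    obtain ⟨g, hg⟩ := hG1
    have h0 : K - 1 = (G - 1).comp F := by rw [sub_comp, one_comp]
    rw [h0, hg, mul_comp, pow_comp, sub_comp, X_comp, C_comp]
    have h1 : ((X - C 1) ^ 60 : ℝ[X]) = ((X - C 1) ^ 6) ^ 10 := by rw [← pow_mul]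
    rw [h1]
    rw [← C_1] at hF1
    exact Dvd.dvd.mul_right (pow_dvd_pow_of_dvd hF1 10) _
  -- pass to the x variable
  set N : ℝ[X] := C (1 / 2) * X + C (1 / 2) with hN
  refine ⟨C 2 * K.comp N + C (-1), ((preach_linear _ _).comp hKP).affine 2 (-1), ?_, ?_⟩
  · obtain ⟨g, hg⟩ := hK1
    have h1 : C 2 * K.comp N + C (-1) - C 1 = C 2 * (K - 1).comp N := by
      rw [sub_comp, one_comp]
      simp only [map_neg, map_one, C_ofNat]
      ring
    rw [h1, hg, mul_comp, pow_comp, sub_comp, X_comp, C_comp]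
    have h2 : N - C 1 = C (1 / 2) * (X - C 1) := by
      rw [hN]
      refine Polynomial.funext fun y => ?_
      simp only [eval_sub, eval_mul, eval_C, eval_X, eval_add]
      ring
    rw [h2, mul_pow]
    exact Dvd.intro _ (by ring : _ * (C 2 * (C (1 / 2) ^ 60 * g.comp N)) = _)
  · obtain ⟨g, hg⟩ := hK0
    have h1 : C 2 * K.comp N + C (-1) - C (-1) = C 2 * K.comp N := by ring
    rw [h1, hg, mul_comp, pow_comp, X_comp]
    have h2 : N = C (1 / 2) * (X - C (-1)) := by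
      rw [hN]
      refine Polynomial.funext fun y => ?_
      simp only [eval_sub, eval_mul, eval_C, eval_X, eval_add]
      ring
    have h3 : N ^ 60 = C (1 / 2) ^ 60 * (X - C (-1)) ^ 60 := by rw [h2, mul_pow]
    rw [h3]
    exact Dvd.intro _ (by ring : _ * (C 2 * (C (1 / 2) ^ 60 * g.comp N)) = _)

end Pool.Agent.H38.Sgn
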