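import Mathlib

/-!
Definitions for problem MP_8bd86c_an: approximation of the sign function on two intervals by
polynomials that are evaluable with few matrix products, and by compositions of odd cubics.
-/

namespace Pool.Agent.H38.Sgn

open Polynomial

/-- The set `[-1, -δ] ∪ [δ, 1]`. -/
def I (δ : ℝ) : Set ℝ := Set.Icc (-1) (-δ) ∪ Set.Icc δ 1

/-- The supremum norm of `p - sgn` on `I δ`, where `sgn x = x / |x|`. -/
noncomputable def err (δ : ℝ) (p : ℝ[X]) : ℝ :=
  sSup ((fun x : ℝ => |p.eval x - x / abs x|) '' I δ)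

/-- `Prog m p` : the polynomial `p` belongs to the class of polynomials computable with
`m` products: `B 0 = 1`, `B 1 = X`, each `B (k+1)` with `1 ≤ k ≤ m` is the product of two real
linear combinations of `B 0, ..., B k`, and `p` is a real linear combination of
`B 0, ..., B (m+1)`. -/
def Prog (m : ℕ) (p : ℝ[X]) : Prop :=
  ∃ (B : ℕ → ℝ[X]) (α β : ℕ → ℕ → ℝ) (γ : ℕ → ℝ),
    B 0 = 1 ∧ B 1 = X ∧
    (∀ k, 1 ≤ k → k ≤ m →
      B (k + 1) = (∑ j ∈ Finset.range (k + 1), C (α k j) * B j) *
        (∑ j ∈ Finset.range (k + 1), C (β k j) * B j)) ∧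
    p = ∑ j ∈ Finset.range (m + 2), C (γ j) * B j

/-- The composition `p_T ∘ ... ∘ p_1` of the odd cubics `p_t = a_t x + b_t x^3`
(`a t`, `b t` with `t < T` are the coefficients of `p_{t+1}`). -/
noncomputable def cubics (a b : ℕ → ℝ) : ℕ → ℝ[X]
  | 0 => X
  | T + 1 => (C (a T) * X + C (b T) * X ^ 3).comp (cubics a b T)

/-- `Comp T p` : `p` is a composition of `T` odd cubics. -/
def Comp (T : ℕ) (p : ℝ[X]) : Prop := ∃ a b : ℕ → ℝ, p = cubics a b T

/-- The best error with `m` products. -/
noncomputable def epsStar (δ : ℝ) (m : ℕ) : ℝ := sInf (err δ '' {p | Prog m p})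

/-- The best error of compositions of `T` odd cubics (these need `2 T` products). -/
noncomputable def epsComp (δ : ℝ) (T : ℕ) : ℝ := sInf (err δ '' {p | Comp T p})

end Pool.Agent.H38.Sgn
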