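import Pool.Agent.H38.Sgn.Basic

/-! Every polynomial of degree at most `n` has error at least `κ ^ n` on `I δ`. -/

namespace Pool.Agent.H38.Sgn

open Polynomial

lemma prog_natDegree {m : ℕ} {p : ℝ[X]} (h : Prog m p) : p.natDegree ≤ 2 ^ m := by
  obtain ⟨B, α, β, γ, h0, h1, hk, rfl⟩ := h
  have key : ∀ k, k ≤ m + 1 → (B k).natDegree ≤ 2 ^ (k - 1) := by
    intro k
    induction k using Nat.strong_induction_on with
    | _ k ih =>
      intro hkm
      rcases Nat.eq_zero_or_pos k with rfl | hpos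
      · simp [h0]
      rcases Nat.lt_or_ge k 2 with h2 | h2
      · have : k = 1 := by omega
        subst this
        simp [h1]
      obtain ⟨j, rfl⟩ : ∃ j, k = j + 1 := ⟨k - 1, by omega⟩
      rw [hk j (by omega) (by omega)]
      have hs : ∀ c : ℕ → ℝ,
          (∑ i ∈ Finset.range (j + 1), C (c i) * B i).natDegree ≤ 2 ^ (j - 1) := by
        intro c
        refine natDegree_sum_le_of_forall_le _ _ fun i hi => ?_
        have hi' := Finset.mem_range.1 hi
        refine (natDegree_C_mul_le _ _).trans ((ih i (by omega) (by omega)).trans ?_)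
        exact Nat.pow_le_pow_right (by norm_num) (by omega)
      refine natDegree_mul_le.trans ((add_le_add (hs _) (hs _)).trans ?_)
      have : 2 ^ (j + 1 - 1) = 2 ^ (j - 1) + 2 ^ (j - 1) := by
        rw [← two_mul, ← pow_succ']
        congr 1
        omega
      rw [this]
  refine natDegree_sum_le_of_forall_le _ _ fun i hi => ?_
  have hi' := Finset.mem_range.1 hi
  refine (natDegree_C_mul_le _ _).trans ((key i (by omega)).trans ?_)
  exact Nat.pow_le_pow_right (by norm_num) (by omega)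

lemma eval_T_le {x : ℝ} (hx : 1 ≤ x) (n : ℕ) :
    (Chebyshev.T ℝ n).eval x ≤ (2 * x) ^ n := by
  induction n using Nat.strong_induction_on with
  | _ n ih =>
    rcases Nat.lt_or_ge n 2 with h | h
    · interval_cases n
      · simp
      · simp; linarith
    · obtain ⟨k, rfl⟩ : ∃ k, n = k + 2 := ⟨n - 2, by omega⟩
      have h1 := ih (k + 1) (by omega)
      have h2 := Chebyshev.one_le_eval_T_real (k : ℤ) hx
      have h3 : (Chebyshev.T ℝ ((k + 2 : ℕ) : ℤ)) = 2 * X * Chebyshev.T ℝ ((k : ℤ) + 1) -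
          Chebyshev.T ℝ (k : ℤ) := by
        push_cast
        exact Chebyshev.T_add_two ℝ (k : ℤ)
      rw [h3]
      simp only [eval_sub, eval_mul, eval_ofNat, eval_X]
      push_cast at h1
      have h4 : 2 * x * (Chebyshev.T ℝ ((k : ℤ) + 1)).eval x ≤ 2 * x * (2 * x) ^ (k + 1) := by
        apply mul_le_mul_of_nonneg_left h1 (by linarith)
      calc _ ≤ 2 * x * (2 * x) ^ (k + 1) := by linarith
        _ = (2 * x) ^ (k + 2) := by ring

/-- Growth of polynomials bounded on `[δ, 1]`. -/
lemma growth {δ : ℝ} (h0 : 0 < δ) (h1 : δ < 1) {n : ℕ} {Q : ℝ[X]} (hQ : Q.natDegree ≤ n)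
    {M : ℝ} (hM : 0 < M) (hb : ∀ x, δ ≤ x → x ≤ 1 → |Q.eval x| ≤ M) {x : ℝ}
    (hx : -δ ≤ x) (hx' : x ≤ δ) : |Q.eval x| ≤ M * (8 / (1 - δ)) ^ n := by
  have hd : 0 < 1 - δ := by linarith
  -- affine change of variables
  set L : ℝ[X] := C (-(1 - δ) / 2) * X + C ((1 + δ) / 2) with hL
  have hLev : ∀ y, L.eval y = (-(1 - δ) * y + (1 + δ)) / 2 := by
    intro y; simp [hL]; ring
  have hLdeg : L.natDegree ≤ 1 := by
    rw [hL]; exact natDegree_linear_le
  have main : ∀ s : ℝ, s = 1 ∨ s = -1 → s * Q.eval x ≤ M * (8 / (1 - δ)) ^ n := by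
    intro s hs
    set P : ℝ[X] := C (s / M) * Q.comp L with hP
    have hPdeg : P.degree ≤ n := by
      refine degree_le_of_natDegree_le ?_
      refine (natDegree_C_mul_le _ _).trans (natDegree_comp_le.trans ?_)
      calc Q.natDegree * L.natDegree ≤ n * 1 := Nat.mul_le_mul hQ hLdeg
        _ = n := mul_one n
    have hPb : ∀ y ∈ Set.Icc (-1 : ℝ) 1, |P.eval y| ≤ 1 := by
      intro y hy
      have h3 : |Q.eval (L.eval y)| ≤ M := by
        apply hb
        · rw [hLev]; nlinarith [hy.2]
        · rw [hLev]; nlinarith [hy.1]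
      have hs' : |s| = 1 := by
        rcases hs with rfl | rfl <;> simp
      rw [hP]
      simp only [eval_mul, eval_C, eval_comp]
      rw [abs_mul, abs_div, hs', abs_of_pos hM, div_mul_eq_mul_div, one_mul]
      exact (div_le_one hM).2 h3
    set y : ℝ := (1 + δ - 2 * x) / (1 - δ) with hy
    have hy1 : 1 ≤ y := by
      rw [hy, le_div_iff₀ hd]; linarith
    have hLy : L.eval y = x := by
      rw [hLev, hy]
      field_simp
      ring
    have hT := Chebyshev.eval_iterate_derivative_le_of_forall_abs_le_one (k := 0) hy1 hPdeg hPb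
    simp only [Function.iterate_zero, id_eq] at hT
    have hT2 := eval_T_le hy1 n
    have h5 : P.eval y = s / M * Q.eval x := by
      rw [hP]; simp only [eval_mul, eval_C, eval_comp, hLy]
    have h6 : (2 * y) ^ n ≤ (8 / (1 - δ)) ^ n := by
      apply pow_le_pow_left₀ (by linarith)
      rw [hy, ← mul_div_assoc]
      apply div_le_div_of_nonneg_right _ hd.le
      linarith
    have h7 : s / M * Q.eval x ≤ (8 / (1 - δ)) ^ n := by
      rw [← h5]; linarith
    have h8 := mul_le_mul_of_nonneg_left h7 hM.le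
    calc s * Q.eval x = M * (s / M * Q.eval x) := by field_simp
      _ ≤ _ := h8
  rw [abs_le]
  constructor
  · have := main (-1) (Or.inr rfl)
    linarith
  · have := main 1 (Or.inl rfl)
    linarith

/-- A polynomial of degree at most `n` with error `e` satisfies `1 ≤ 3 e K ^ (2 n)`. -/
lemma err_lower {δ : ℝ} (h0 : 0 < δ) (h1 : δ < 1) {n : ℕ} {p : ℝ[X]} (hp : p.natDegree ≤ n) :
    1 ≤ 3 * err δ p * (8 / (1 - δ)) ^ (2 * n) := by
  have hd : 0 < 1 - δ := by linarith
  have hK : 1 ≤ 8 / (1 - δ) := by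
    rw [le_div_iff₀ hd]; linarith
  have hKn : 1 ≤ (8 / (1 - δ)) ^ (2 * n) := one_le_pow₀ hK
  set e := err δ p with he
  rcases le_or_gt 1 e with h | h
  · nlinarith
  -- a zero of p
  have hpos : 0 < p.eval δ := by
    have := abs_le.1 (le_err_pos h0 (p := p) le_rfl h1.le)
    linarith [this.1]
  have hneg : p.eval (-δ) < 0 := by
    have := abs_le.1 (le_err_neg h0 (p := p) (x := -δ) (by linarith) le_rfl)
    linarith [this.2]
  obtain ⟨z, hz, hz0⟩ := intermediate_value_Icc (show -δ ≤ δ by linarith)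
    (f := fun x => p.eval x) (by fun_prop) (show (0:ℝ) ∈ Set.Icc _ _ from ⟨hneg.le, hpos.le⟩)
  have he0 : 0 ≤ e := err_nonneg h0 h1 p
  -- use any bound M > 0 above 3 e
  have key : ∀ M : ℝ, 0 < M → 3 * e ≤ M → 1 ≤ M * (8 / (1 - δ)) ^ (2 * n) := by
    intro M hM hMe
    have hQ : (p ^ 2 - 1 : ℝ[X]).natDegree ≤ 2 * n := by
      refine (natDegree_sub_le _ _).trans ?_
      simp only [natDegree_one, Nat.max_zero]
      exact natDegree_pow_le.trans (Nat.mul_le_mul_left 2 hp)
    have hb : ∀ x, δ ≤ x → x ≤ 1 → |(p ^ 2 - 1 : ℝ[X]).eval x| ≤ M := by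
      intro x hx hx'
      have h2 := abs_le.1 (le_err_pos h0 (p := p) hx hx')
      simp only [eval_sub, eval_pow, eval_one]
      rw [abs_le]
      constructor <;> nlinarith [h2.1, h2.2]
    have := growth h0 h1 hQ hM hb hz.1 hz.2
    simp only [eval_sub, eval_pow, eval_one] at this
    have hz0' : p.eval z = 0 := hz0
    rw [hz0'] at this
    norm_num at this
    exact this
  rcases he0.lt_or_eq with hlt | heq
  · exact key (3 * e) (by linarith) le_rfl
  · exfalso
    have hKpos : 0 < (8 / (1 - δ)) ^ (2 * n) := by positivity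
    have := key (1 / (2 * (8 / (1 - δ)) ^ (2 * n))) (by positivity) (by rw [← heq, mul_zero]; positivity)
    rw [div_mul_eq_mul_div, one_mul, le_div_iff₀ (by positivity)] at this
    linarith

lemma epsStar_lower {δ : ℝ} (h0 : 0 < δ) (h1 : δ < 1) (m : ℕ) :
    1 / (3 * (8 / (1 - δ)) ^ (2 * 2 ^ m)) ≤ epsStar δ m := by
  have hd : 0 < 1 - δ := by linarith
  refine le_epsStar fun p hp => ?_
  have := err_lower h0 h1 (prog_natDegree hp)
  rw [div_le_iff₀ (by positivity)]
  linarith

end Pool.Agent.H38.Sgn
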