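import Pool.Agent.H38.Sgn.Block
import Pool.Agent.H38.Sgn.Degree

/-! The number of odd cubic steps needed to match `m` general products. -/

namespace Pool.Agent.H38.Sgn

open Polynomial

lemma Prog.preach {m : ℕ} {p : ℝ[X]} (h : Prog m p) : PReach m p := by
  obtain ⟨B, α, β, γ, h0, h1, hk, hp⟩ := h
  have key : ∀ k ≤ m, Reach k (Submodule.span ℝ (B '' (Finset.range (k + 2) : Set ℕ))) := by
    intro k
    induction k with
    | zero =>
      intro _
      have : (B '' (Finset.range (0 + 2) : Set ℕ)) = {1, X} := by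
        ext q
        simp only [Set.mem_insert_iff, Set.mem_singleton_iff, Set.mem_image, Finset.coe_range,
          Set.mem_Iio]
        constructor
        · rintro ⟨k, hk, rfl⟩
          interval_cases k
          · exact Or.inl h0
          · exact Or.inr h1
        · rintro (rfl | rfl)
          · exact ⟨0, by norm_num, h0⟩
          · exact ⟨1, by norm_num, h1⟩
      rw [this]
      exact Reach.base
    | succ k ih =>
      intro hkm
      have ih' := ih (by omega)
      have h3 := hk (k + 1) (by omega) hkm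
      have hu : (∑ j ∈ Finset.range (k + 1 + 1), C (α (k + 1) j) * B j) ∈
          Submodule.span ℝ (B '' (Finset.range (k + 2) : Set ℕ)) :=
        mem_span_range_iff.2 ⟨_, rfl⟩
      have hv : (∑ j ∈ Finset.range (k + 1 + 1), C (β (k + 1) j) * B j) ∈
          Submodule.span ℝ (B '' (Finset.range (k + 2) : Set ℕ)) :=
        mem_span_range_iff.2 ⟨_, rfl⟩
      have h4 := ih'.step hu hv
      rw [← h3, ← Submodule.span_union] at h4
      have : (B '' (Finset.range (k + 1 + 2) : Set ℕ)) =
          B '' (Finset.range (k + 2) : Set ℕ) ∪ {B (k + 1 + 1)} := by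
        ext q
        simp only [Set.mem_union, Set.mem_singleton_iff, Set.mem_image, Finset.coe_range,
          Set.mem_Iio]
        constructor
        · rintro ⟨j, hj, rfl⟩
          rcases Nat.lt_or_ge j (k + 2) with hlt | hge
          · exact Or.inl ⟨j, hlt, rfl⟩
          · right
            congr 1
            omega
        · rintro (⟨j, hj, rfl⟩ | rfl)
          · exact ⟨j, by omega, rfl⟩
          · exact ⟨k + 2, by omega, rfl⟩
      rw [this]
      exact h4
  exact ⟨_, key m le_rfl, mem_span_range_iff.2 ⟨γ, hp⟩⟩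

lemma epsStar_anti {δ : ℝ} (h0 : 0 < δ) (h1 : δ < 1) {m n : ℕ} (h : m ≤ n) :
    epsStar δ n ≤ epsStar δ m :=
  le_epsStar fun _ hp => epsStar_le h0 h1 (hp.preach.mono h).prog

lemma epsStar_le_one_sub {δ : ℝ} (h0 : 0 < δ) (h1 : δ < 1) (m : ℕ) :
    epsStar δ m ≤ 1 - δ := by
  refine (epsStar_anti h0 h1 (Nat.zero_le m)).trans
    ((epsStar_le h0 h1 preach_X.prog).trans (err_le h0 h1 ?_ ?_))
  · intro x hx hx'
    rw [eval_X, abs_of_nonpos (by linarith)]
    linarith
  · intro x hx hx'
    rw [eval_X, abs_of_nonneg (by linarith)]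
    linarith

lemma epsStar_pos {δ : ℝ} (h0 : 0 < δ) (h1 : δ < 1) (m : ℕ) : 0 < epsStar δ m := by
  refine lt_of_lt_of_le ?_ (epsStar_lower h0 h1 m)
  have : 0 < 1 - δ := by linarith
  positivity

open Real in
theorem main {δ : ℝ} (h0 : 0 < δ) (h1 : δ < 1) : ∃ K : ℝ, ∀ m : ℕ, 1 ≤ m → ∃ T : ℕ,
    IsLeast {T : ℕ | 1 ≤ T ∧ epsComp δ T ≤ epsStar δ m} T ∧
    Real.logb 2 60 / 8 * m - K ≤ T ∧ (T : ℝ) ≤ m + K ∧
    |(T : ℝ) - Real.logb 2 (Real.log (1 / epsStar δ m))| ≤ K := by
  have hd : 0 < 1 - δ := by linarith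
  -- constants
  set κ : ℝ := 3 / 16 * (1 - δ) with hκ
  have hκ0 : 0 < κ := by rw [hκ]; linarith
  have hκ1 : κ < 1 := by rw [hκ]; linarith
  obtain ⟨θ, hθ0, hθ1, hθ⟩ := epsComp_upper h0 h1
  obtain ⟨E, hE, hE1, hE2⟩ := exists_E
  obtain ⟨n0, hn0⟩ := block_iter (by norm_num) hE hE1 hE2 h0 h1
  set K0 : ℝ := 8 / (1 - δ) with hK0
  have hK0' : 1 < K0 := by rw [hK0, lt_div_iff₀ hd]; linarith
  have hlogκ : 0 < Real.log (1 / κ) := Real.log_pos (by rw [lt_div_iff₀ hκ0]; linarith)
  have hlogθ : 0 < Real.log (1 / θ) := Real.log_pos (by rw [lt_div_iff₀ hθ0]; linarith)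
  have hlogδ : 0 < Real.log (1 / (1 - δ)) := Real.log_pos (by rw [lt_div_iff₀ hd]; linarith)
  have hlog2 : 0 < Real.log 2 := Real.log_pos (by norm_num)
  have hlog3 : 0 < Real.log 3 := Real.log_pos (by norm_num)
  have hlogK : 0 < Real.log K0 := Real.log_pos hK0'
  have h60 : 0 < Real.logb 2 60 := Real.logb_pos (by norm_num) (by norm_num)
  set c1 : ℝ := |Real.logb 2 (Real.log (1 / κ))| with hc1
  set c2 : ℝ := |Real.logb 2 (Real.log (1 / θ))| with hc2
  set c3 : ℝ := |Real.logb 2 (Real.log (1 / (1 - δ)))| with hc3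
  set c4 : ℝ := |Real.logb 2 (Real.log 3 + 2 * Real.log K0)| with hc4
  set c5 : ℝ := |Real.logb 2 (Real.log 2)| with hc5
  have p1 : 0 ≤ c1 := abs_nonneg _
  have p2 : 0 ≤ c2 := abs_nonneg _
  have p3 : 0 ≤ c3 := abs_nonneg _
  have p4 : 0 ≤ c4 := abs_nonneg _
  have p5 : 0 ≤ c5 := abs_nonneg _
  have p6 : 0 ≤ Real.logb 2 60 / 8 * (n0 + 8) := by positivity
  refine ⟨1 + c1 + c2 + c3 + c4 + c5 + Real.logb 2 60 / 8 * (n0 + 8), fun m hm => ?_⟩
  set ε := epsStar δ m with hε
  have hε0 : 0 < ε := epsStar_pos h0 h1 m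
  have hεδ : ε ≤ 1 - δ := epsStar_le_one_sub h0 h1 m
  set L := Real.log (1 / ε) with hL
  have hLδ : Real.log (1 / (1 - δ)) ≤ L :=
    Real.log_le_log (by positivity) (one_div_le_one_div_of_le hε0 hεδ)
  have hL0 : 0 < L := hlogδ.trans_le hLδ
  -- the set is nonempty
  set S : Set ℕ := {T : ℕ | 1 ≤ T ∧ epsComp δ T ≤ ε} with hS
  have hSne : S.Nonempty := by
    obtain ⟨N, hN⟩ := exists_pow_lt_of_lt_one hε0 hθ1
    refine ⟨N + 1, by omega, (hθ (N + 1)).trans (le_trans ?_ hN.le)⟩
    exact pow_le_pow_of_le_one hθ0.le hθ1.le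
      ((Nat.lt_two_pow_self (n := N)).le.trans (Nat.pow_le_pow_right (by norm_num) (by omega)))
  set T := sInf S with hT
  have hTS : T ∈ S := Nat.sInf_mem hSne
  have hleast : IsLeast S T := ⟨hTS, fun a ha => Nat.sInf_le ha⟩
  refine ⟨T, hleast, ?_⟩
  -- (a) lower bound for T
  have ha : Real.logb 2 L - c1 ≤ T := by
    have h2 : κ ^ (2 ^ T) ≤ ε := (epsComp_lower h0 h1 T).trans hTS.2
    have h3 : L ≤ 2 ^ T * Real.log (1 / κ) := by
      have h4 : (1 / ε) ≤ (1 / κ) ^ (2 ^ T) := by
        rw [one_div_pow]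
        exact one_div_le_one_div_of_le (by positivity) h2
      have h5 := Real.log_le_log (by positivity) h4
      rw [Real.log_pow] at h5
      push_cast at h5
      exact h5
    have h4 := Real.logb_le_logb_of_le (b := 2) (by norm_num) hL0 h3
    rw [Real.logb_mul (by positivity) hlogκ.ne', Real.logb_pow,
      Real.logb_self_eq_one (by norm_num)] at h4
    have h5 := le_abs_self (Real.logb 2 (Real.log (1 / κ)))
    rw [mul_one] at h4
    linarith
  -- (b) upper bound for T
  have hb : (T : ℝ) ≤ Real.logb 2 L + 1 + c2 + c3 := by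
    rcases Nat.lt_or_ge T 2 with hlt | hge
    · have hT1 : (T : ℝ) ≤ 1 := by exact_mod_cast (by omega : T ≤ 1)
      have h3 := Real.logb_le_logb_of_le (b := 2) (by norm_num) hlogδ hLδ
      have h4 := neg_abs_le (Real.logb 2 (Real.log (1 / (1 - δ))))
      linarith
    · have hnot : T - 1 ∉ S := fun hmem => by
        have := hleast.2 hmem
        omega
      have hgt : ε < epsComp δ (T - 1) := by
        by_contra hcon
        exact hnot ⟨by omega, not_lt.1 hcon⟩
      have h2 : ε < θ ^ (2 ^ (T - 1)) := hgt.trans_le (hθ (T - 1))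
      have h3 : 2 ^ (T - 1) * Real.log (1 / θ) ≤ L := by
        have h4 : (1 / θ) ^ (2 ^ (T - 1)) ≤ 1 / ε := by
          rw [one_div_pow]
          exact one_div_le_one_div_of_le hε0 h2.le
        have h5 := Real.log_le_log (by positivity) h4
        rw [Real.log_pow] at h5
        push_cast at h5
        exact h5
      have h4 := Real.logb_le_logb_of_le (b := 2) (by norm_num) (by positivity) h3
      rw [Real.logb_mul (by positivity) hlogθ.ne', Real.logb_pow,
        Real.logb_self_eq_one (by norm_num)] at h4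
      have h5 := neg_abs_le (Real.logb 2 (Real.log (1 / θ)))
      have h6 : ((T - 1 : ℕ) : ℝ) = T - 1 := by
        rw [Nat.cast_sub (by omega)]; simp
      rw [h6, mul_one] at h4
      linarith
  -- (c) upper bound for L
  have hc : Real.logb 2 L ≤ m + c4 := by
    have h2 := epsStar_lower h0 h1 m
    have h3 : 1 / ε ≤ 3 * K0 ^ (2 * 2 ^ m) := by
      rw [div_le_iff₀ hε0]
      rw [div_le_iff₀ (by positivity)] at h2
      linarith
    have h4 : L ≤ 2 ^ m * (Real.log 3 + 2 * Real.log K0) := by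
      have h5 := Real.log_le_log (by positivity) h3
      rw [Real.log_mul (by norm_num) (by positivity), Real.log_pow] at h5
      push_cast at h5
      have h6 : (1:ℝ) ≤ 2 ^ m := one_le_pow₀ (by norm_num)
      nlinarith
    have h5 := Real.logb_le_logb_of_le (b := 2) (by norm_num) hL0 h4
    rw [Real.logb_mul (by positivity) (by positivity), Real.logb_pow,
      Real.logb_self_eq_one (by norm_num), mul_one] at h5
    have h6 := le_abs_self (Real.logb 2 (Real.log 3 + 2 * Real.log K0))
    linarith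
  -- (d) lower bound for L
  have hdd : Real.logb 2 60 / 8 * m - Real.logb 2 60 / 8 * (n0 + 8) - c5 - c3 ≤
      Real.logb 2 L := by
    rcases Nat.lt_or_ge m n0 with hlt | hge
    · have h3 := Real.logb_le_logb_of_le (b := 2) (by norm_num) hlogδ hLδ
      have h4 := neg_abs_le (Real.logb 2 (Real.log (1 / (1 - δ))))
      have h5 : (m : ℝ) ≤ n0 := by exact_mod_cast hlt.le
      have h6 : Real.logb 2 60 / 8 * m ≤ Real.logb 2 60 / 8 * (n0 + 8) :=
        mul_le_mul_of_nonneg_left (by linarith) (by positivity)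
      linarith
    · set k := (m - n0) / 8 with hk
      have hkm : n0 + 8 * k ≤ m := by omega
      have hkm' : m ≤ n0 + 8 * k + 8 := by omega
      have h2 : ε ≤ (1 / 2) ^ (60 ^ k) := (epsStar_anti h0 h1 hkm).trans (hn0 k)
      have h3 : 60 ^ k * Real.log 2 ≤ L := by
        have h4 : (2 : ℝ) ^ (60 ^ k) ≤ 1 / ε := by
          rw [le_div_iff₀ hε0]
          calc (2 : ℝ) ^ (60 ^ k) * ε ≤ 2 ^ (60 ^ k) * (1 / 2) ^ (60 ^ k) :=
                mul_le_mul_of_nonneg_left h2 (by positivity)
            _ = 1 := by rw [← mul_pow]; norm_num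
        have h5 := Real.log_le_log (by positivity) h4
        rw [Real.log_pow] at h5
        push_cast at h5
        exact h5
      have h4 := Real.logb_le_logb_of_le (b := 2) (by norm_num) (by positivity) h3
      rw [Real.logb_mul (by positivity) hlog2.ne', Real.logb_pow] at h4
      have h5 := neg_abs_le (Real.logb 2 (Real.log 2))
      have h6 : (m : ℝ) ≤ n0 + 8 * k + 8 := by exact_mod_cast hkm'
      have h7 : Real.logb 2 60 / 8 * m ≤ Real.logb 2 60 / 8 * (n0 + 8 * k + 8) :=
        mul_le_mul_of_nonneg_left h6 (by positivity)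
      linarith
  refine ⟨by linarith, by linarith, ?_⟩
  rw [abs_le]
  constructor <;> linarith

end Pool.Agent.H38.Sgn
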