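import Pool.Agent.H38.Sgn.Prog4

/-! Existence of a polynomial computable with four products that is `O(y ^ 10)` at `0` and
`1 + O((y - 1) ^ 6)` at `1`. -/

namespace Pool.Agent.H38.Sgn

open Polynomial

lemma mul_iv {a b a1 a2 b1 b2 lo hi : ℝ} (ha : a1 ≤ a ∧ a ≤ a2) (hb : b1 ≤ b ∧ b ≤ b2)
    (h11 : lo ≤ a1 * b1) (h12 : lo ≤ a1 * b2) (h21 : lo ≤ a2 * b1) (h22 : lo ≤ a2 * b2)
    (k11 : a1 * b1 ≤ hi) (k12 : a1 * b2 ≤ hi) (k21 : a2 * b1 ≤ hi) (k22 : a2 * b2 ≤ hi) :
    lo ≤ a * b ∧ a * b ≤ hi := by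
  obtain ⟨ha1, ha2⟩ := ha
  obtain ⟨hb1, hb2⟩ := hb
  -- values at the endpoints in b
  have e1 : ∀ c, (lo ≤ c * b1) → (lo ≤ c * b2) → lo ≤ c * b := by
    intro c h1 h2
    rcases le_total 0 c with h | h
    · nlinarith
    · nlinarith
  have e2 : ∀ c, (c * b1 ≤ hi) → (c * b2 ≤ hi) → c * b ≤ hi := by
    intro c h1 h2
    rcases le_total 0 c with h | h
    · nlinarith
    · nlinarith
  have f1 := e1 a1 h11 h12
  have f2 := e1 a2 h21 h22
  have f3 := e2 a1 k11 k12
  have f4 := e2 a2 k21 k22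
  constructor
  · rcases le_total 0 b with h | h <;> nlinarith
  · rcases le_total 0 b with h | h <;> nlinarith

lemma numeric {t x7 x6 x5 x4 x3 x2 x1 x0 R6 R5 A p q w C0 : ℝ}
    (ht1 : 375637137512 / 1000000000000000 ≤ t) (ht2 : t ≤ 375637137513 / 1000000000000000)
    (ex7 : x7 = -3 - 1001 * t)
    (ex6 : x6 = 15 / 2 + 10725 / 2 * t - 1 / 2 * (x7 * x7))
    (ex5 : x5 = -10 - 11550 * t - x6 * x7)
    (ex4 : x4 = 15 / 2 + 25025 / 2 * t - x5 * x7 - 1 / 2 * (x6 * x6))
    (ex3 : x3 = -3 - 6825 * t - x4 * x7 - x5 * x6)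
    (ex2 : x2 = 1 / 2 + 3003 / 2 * t - x3 * x7 - x4 * x6 - 1 / 2 * (x5 * x5))
    (ex1 : x1 = -(x2 * x7) - x3 * x6 - x4 * x5)
    (ex0 : x0 = -(x1 * x7) - x2 * x6 - x3 * x5 - 1 / 2 * (x4 * x4))
    (eR6 : R6 = 2 * (x0 * x6) + 2 * (x1 * x5) + 2 * (x2 * x4) + x3 * x3)
    (eR5 : R5 = 2 * (x0 * x5) + 2 * (x1 * x4) + 2 * (x2 * x3))
    (eA : A = 2 * R5 - 3 / 2 * (x7 * R6))
    (ep : p = x6 - 1 / 4 * (x7 * x7))
    (eq : q = x5 - 1 / 2 * (p * x7))
    (ew : w = x4 - 1 / 4 * (p * p) - 1 / 2 * (q * x7))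
    (eC0 : C0 = 1 / 2 * (x7 * w) - x3 + 1 / 2 * (p * q)) :
    0 < R6 ∧ 0 < A ∧ 0 < p ∧ C0 < 0 := by
  have hx7 : (-16880063873253 / 5000000000000) ≤ x7 ∧ x7 ≤ (-6752025549299 / 2000000000000) := by
    constructor <;> linarith only [ht1, ht2, ex7]
  have hm77 : (56987311272983 / 5000000000000) ≤ x7 * x7 ∧ x7 * x7 ≤ (113974622546041 / 10000000000000) := mul_iv hx7 hx7 (by norm_num) (by norm_num) (by norm_num)
    (by norm_num) (by norm_num) (by norm_num) (by norm_num) (by norm_num)
  have hx6 : (1907811511303 / 500000000000) ≤ x6 ∧ x6 ≤ (4769528778269 / 1250000000000) := by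
    constructor <;> linarith only [hm77.1, hm77.2, ht1, ht2, ex6]
  have hm67 : (-128815920675999 / 10000000000000) ≤ x6 * x7 ∧ x6 * x7 ≤ (-25763184135129 / 2000000000000) := mul_iv hx6 hx7 (by norm_num) (by norm_num) (by norm_num)
    (by norm_num) (by norm_num) (by norm_num) (by norm_num) (by norm_num)
  have hx5 : (-14570168707107 / 10000000000000) ≤ x5 ∧ x5 ≤ (-14570168706637 / 10000000000000) := by
    constructor <;> linarith only [hm67.1, hm67.2, ht1, ht2, ex5]
  have hm57 : (12297268920601 / 2500000000000) ≤ x5 * x7 ∧ x5 * x7 ≤ (6148634460501 / 1250000000000) := mul_iv hx5 hx7 (by norm_num) (by norm_num) (by norm_num)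
    (by norm_num) (by norm_num) (by norm_num) (by norm_num) (by norm_num)
  have hm66 : (145589790506409 / 10000000000000) ≤ x6 * x6 ∧ x6 * x6 ≤ (18198723813389 / 1250000000000) := mul_iv hx6 hx6 (by norm_num) (by norm_num) (by norm_num)
    (by norm_num) (by norm_num) (by norm_num) (by norm_num) (by norm_num)
  have hx4 : (141007149 / 80000000000) ≤ x4 ∧ x4 ≤ (8812947853 / 5000000000000) := by
    constructor <;> linarith only [hm57.1, hm57.2, hm66.1, hm66.2, ht1, ht2, ex4]
  have hm47 : (-59505249069 / 10000000000000) ≤ x4 * x7 ∧ x4 * x7 ≤ (-29752621021 / 5000000000000) := mul_iv hx4 hx7 (by norm_num) (by norm_num) (by norm_num)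
    (by norm_num) (by norm_num) (by norm_num) (by norm_num) (by norm_num)
  have hm56 : (-27797135581113 / 5000000000000) ≤ x5 * x6 ∧ x5 * x6 ≤ (-55594271160297 / 10000000000000) := mul_iv hx5 hx6 (by norm_num) (by norm_num) (by norm_num)
    (by norm_num) (by norm_num) (by norm_num) (by norm_num) (by norm_num)
  have hx3 : (4135441769 / 2500000000000) ≤ x3 ∧ x3 ≤ (16541776101 / 10000000000000) := by
    constructor <;> linarith only [hm47.1, hm47.2, hm56.1, hm56.2, ht1, ht2, ex3]
  have hm37 : (-55845247433 / 10000000000000) ≤ x3 * x7 ∧ x3 * x7 ≤ (-55845216963 / 10000000000000) := mul_iv hx3 hx7 (by norm_num) (by norm_num) (by norm_num)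
    (by norm_num) (by norm_num) (by norm_num) (by norm_num) (by norm_num)
  have hm46 : (67253765509 / 10000000000000) ≤ x4 * x6 ∧ x4 * x6 ≤ (67253773451 / 10000000000000) := mul_iv hx4 hx6 (by norm_num) (by norm_num) (by norm_num)
    (by norm_num) (by norm_num) (by norm_num) (by norm_num) (by norm_num)
  have hm55 : (10614490806993 / 5000000000000) ≤ x5 * x5 ∧ x5 * x5 ≤ (21228981615357 / 10000000000000) := mul_iv hx5 hx5 (by norm_num) (by norm_num) (by norm_num)
    (by norm_num) (by norm_num) (by norm_num) (by norm_num) (by norm_num)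
  have hx2 : (1786531947 / 1250000000000) ≤ x2 ∧ x2 ≤ (14292294689 / 10000000000000) := by
    constructor <;> linarith only [hm37.1, hm37.2, hm46.1, hm46.2, hm55.1, hm55.2, ht1, ht2, ex2]
  have hm27 : (-965019389 / 200000000000) ≤ x2 * x7 ∧ x2 * x7 ≤ (-48250837403 / 10000000000000) := mul_iv hx2 hx7 (by norm_num) (by norm_num) (by norm_num)
    (by norm_num) (by norm_num) (by norm_num) (by norm_num) (by norm_num)
  have hm36 : (63117147289 / 10000000000000) ≤ x3 * x6 ∧ x3 * x6 ≤ (31558590863 / 5000000000000) := mul_iv hx3 hx6 (by norm_num) (by norm_num) (by norm_num)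
    (by norm_num) (by norm_num) (by norm_num) (by norm_num) (by norm_num)
  have hm45 : (-12840613703 / 5000000000000) ≤ x4 * x5 ∧ x4 * x5 ≤ (-6420306093 / 2500000000000) := mul_iv hx4 hx5 (by norm_num) (by norm_num) (by norm_num)
    (by norm_num) (by norm_num) (by norm_num) (by norm_num) (by norm_num)
  have hx1 : (10814880049 / 10000000000000) ≤ x1 ∧ x1 ≤ (10815049567 / 10000000000000) := by
    constructor <;> linarith only [hm27.1, hm27.2, hm36.1, hm36.2, hm45.1, hm45.2, ht1, ht2, ex1]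
  have hm17 : (-36511745497 / 10000000000000) ≤ x1 * x7 ∧ x1 * x7 ≤ (-36511173201 / 10000000000000) := mul_iv hx1 hx7 (by norm_num) (by norm_num) (by norm_num)
    (by norm_num) (by norm_num) (by norm_num) (by norm_num) (by norm_num)
  have hm26 : (2726692971 / 500000000000) ≤ x2 * x6 ∧ x2 * x6 ≤ (27267004331 / 5000000000000) := mul_iv hx2 hx6 (by norm_num) (by norm_num) (by norm_num)
    (by norm_num) (by norm_num) (by norm_num) (by norm_num) (by norm_num)
  have hm35 : (-24101646851 / 10000000000000) ≤ x3 * x5 ∧ x3 * x5 ≤ (-241016337 / 100000000000) := mul_iv hx3 hx5 (by norm_num) (by norm_num) (by norm_num)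
    (by norm_num) (by norm_num) (by norm_num) (by norm_num) (by norm_num)
  have hm44 : (7766803 / 2500000000000) ≤ x4 * x4 ∧ x4 * x4 ≤ (1553361 / 500000000000) := mul_iv hx4 hx4 (by norm_num) (by norm_num) (by norm_num)
    (by norm_num) (by norm_num) (by norm_num) (by norm_num) (by norm_num)
  have hx0 : (6063264629 / 10000000000000) ≤ x0 ∧ x0 ≤ (3031999661 / 5000000000000) := by
    constructor <;> linarith only [hm17.1, hm17.2, hm26.1, hm26.2, hm35.1, hm35.2, hm44.1, hm44.2, ht1, ht2, ex0]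
  have hm06 : (2313513211 / 1000000000000) ≤ x0 * x6 ∧ x0 * x6 ≤ (23137935423 / 10000000000000) := mul_iv hx0 hx6 (by norm_num) (by norm_num) (by norm_num)
    (by norm_num) (by norm_num) (by norm_num) (by norm_num) (by norm_num)
  have hm15 : (-15757709677 / 10000000000000) ≤ x1 * x5 ∧ x1 * x5 ≤ (-3151492537 / 2000000000000) := mul_iv hx1 hx5 (by norm_num) (by norm_num) (by norm_num)
    (by norm_num) (by norm_num) (by norm_num) (by norm_num) (by norm_num)
  have hm24 : (25191377 / 10000000000000) ≤ x2 * x4 ∧ x2 * x4 ≤ (503829 / 200000000000) := mul_iv hx2 hx4 (by norm_num) (by norm_num) (by norm_num)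
    (by norm_num) (by norm_num) (by norm_num) (by norm_num) (by norm_num)
  have hm33 : (5472601 / 2000000000000) ≤ x3 * x3 ∧ x3 * x3 ≤ (6840759 / 2500000000000) := mul_iv hx3 hx3 (by norm_num) (by norm_num) (by norm_num)
    (by norm_num) (by norm_num) (by norm_num) (by norm_num) (by norm_num)
  have hm05 : (-8835349317 / 10000000000000) ≤ x0 * x5 ∧ x0 * x5 ≤ (-1766855771 / 2000000000000) := mul_iv hx0 hx5 (by norm_num) (by norm_num) (by norm_num)
    (by norm_num) (by norm_num) (by norm_num) (by norm_num) (by norm_num)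
  have hm14 : (1191387 / 625000000000) ≤ x1 * x4 ∧ x1 * x4 ≤ (9531247 / 5000000000000) := mul_iv hx1 hx4 (by norm_num) (by norm_num) (by norm_num)
    (by norm_num) (by norm_num) (by norm_num) (by norm_num) (by norm_num)
  have hm23 : (5910479 / 2500000000000) ≤ x2 * x3 ∧ x2 * x3 ≤ (11820997 / 5000000000000) := mul_iv hx2 hx3 (by norm_num) (by norm_num) (by norm_num)
    (by norm_num) (by norm_num) (by norm_num) (by norm_num) (by norm_num)
  have hR6 : (1483259 / 1000000000) ≤ R6 ∧ R6 ≤ (3709673 / 2500000000) := by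
    constructor <;> linarith only [hm06.1, hm06.2, hm15.1, hm15.2, hm24.1, hm24.2, hm33.1, hm33.2, ht1, ht2, eR6]
  have hR5 : (-17585291 / 10000000000) ≤ R5 ∧ R5 ≤ (-4395787 / 2500000000) := by
    constructor <;> linarith only [hm05.1, hm05.2, hm14.1, hm14.2, hm23.1, hm23.2, ht1, ht2, eR5]
  have hmR : (-25047807 / 5000000000) ≤ x7 * R6 ∧ x7 * R6 ≤ (-50075013 / 10000000000) := mul_iv hx7 hR6 (by norm_num) (by norm_num) (by norm_num)
    (by norm_num) (by norm_num) (by norm_num) (by norm_num) (by norm_num)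
  have hA : (3994193 / 1000000000) ≤ A ∧ A ≤ (3997713 / 1000000000) := by
    constructor <;> linarith only [hR5.1, hR5.2, hmR.1, hmR.2, ht1, ht2, eA]
  have hp : (19325149179 / 20000000000) ≤ p ∧ p ≤ (96625745897 / 100000000000) := by
    constructor <;> linarith only [hm77.1, hm77.2, hx6.1, hx6.2, ht1, ht2, ep]
  have hmp7 : (-326209752509 / 100000000000) ≤ p * x7 ∧ p * x7 ≤ (-326209752501 / 100000000000) := mul_iv hp hx7 (by norm_num) (by norm_num) (by norm_num)
    (by norm_num) (by norm_num) (by norm_num) (by norm_num) (by norm_num)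
  have hq : (17403189179 / 100000000000) ≤ q ∧ q ≤ (17403189189 / 100000000000) := by
    constructor <;> linarith only [hmp7.1, hmp7.2, hx5.1, hx5.2, ht1, ht2, eq]
  have hmpp : (93365347697 / 100000000000) ≤ p * p ∧ p * p ≤ (46682673851 / 50000000000) := mul_iv hp hp (by norm_num) (by norm_num) (by norm_num)
    (by norm_num) (by norm_num) (by norm_num) (by norm_num) (by norm_num)
  have hmq7 : (-29376694511 / 50000000000) ≤ q * x7 ∧ q * x7 ≤ (-58753388987 / 100000000000) := mul_iv hq hx7 (by norm_num) (by norm_num) (by norm_num)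
    (by norm_num) (by norm_num) (by norm_num) (by norm_num) (by norm_num)
  have hw : (12423233 / 200000000) ≤ w ∧ w ≤ (124232331 / 2000000000) := by
    constructor <;> linarith only [hmpp.1, hmpp.2, hmq7.1, hmq7.2, hx4.1, hx4.2, ht1, ht2, ew]
  have hm7w : (-2097049683 / 10000000000) ≤ x7 * w ∧ x7 * w ≤ (-419409933 / 2000000000) := mul_iv hx7 hw (by norm_num) (by norm_num) (by norm_num)
    (by norm_num) (by norm_num) (by norm_num) (by norm_num) (by norm_num)
  have hmpq : (336319227 / 2000000000) ≤ p * q ∧ p * q ≤ (1681596137 / 10000000000) := mul_iv hp hq (by norm_num) (by norm_num) (by norm_num)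
    (by norm_num) (by norm_num) (by norm_num) (by norm_num) (by norm_num)
  have hC0 : (-2803357 / 125000000) ≤ C0 ∧ C0 ≤ (-22426853 / 1000000000) := by
    constructor <;> linarith only [hm7w.1, hm7w.2, hmpq.1, hmpq.2, hx3.1, hx3.2, ht1, ht2, eC0]
  refine ⟨by linarith only [hR6.1], by linarith only [hA.1], by linarith only [hp.1], by linarith only [hC0.2]⟩

end Pool.Agent.H38.Sgn
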