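import Pool.Agent.H38.Sgn.Reach

/-! A normal form for computations with four products. -/

namespace Pool.Agent.H38.Sgn

open Polynomial

noncomputable section

/-- third power slot -/
def b3 (s : ℝ) : ℝ[X] := (X * X) * (X * X + C s * X)

/-- fourth slot -/
def b4 (s p b1 b2 : ℝ) : ℝ[X] := (b3 s + C p * (X * X) + C b1 * X) * (b3 s + C b2 * X)

/-- The general element computed by four products in normal form. -/
def P4 (s p b1 b2 al be ga de a b c e3 e2 e1 e0 k : ℝ) : ℝ[X] :=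
  C k * ((b4 s p b1 b2 + C al * b3 s + C be * (X * X) + C ga * X + C de +
        C a * (b3 s + C b * (X * X) + C c * X)) *
      (b4 s p b1 b2 + C al * b3 s + C be * (X * X) + C ga * X + C de -
        C a * (b3 s + C b * (X * X) + C c * X)) +
      C e3 * b3 s + C e2 * (X * X) + C e1 * X + C e0)

lemma preach4 (s p b1 b2 al be ga de a b c e3 e2 e1 e0 k : ℝ) :
    PReach 4 (P4 s p b1 b2 al be ga de a b c e3 e2 e1 e0 k) := by
  unfold P4
  -- stage 1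
  obtain ⟨V1, hV1, hX2⟩ : ∃ V, Reach 1 V ∧ (X * X : ℝ[X]) ∈ V :=
    ⟨_, Reach.base.step Reach.base.X_mem Reach.base.X_mem,
      Submodule.mem_sup_right (Submodule.mem_span_singleton_self _)⟩
  -- stage 2
  obtain ⟨V2, hV2, hle2, hb3⟩ : ∃ V, Reach 2 V ∧ V1 ≤ V ∧ b3 s ∈ V :=
    ⟨_, hV1.step hX2 (V1.add_mem hX2 (C_mul_mem s hV1.X_mem)), le_sup_left,
      Submodule.mem_sup_right (Submodule.mem_span_singleton_self _)⟩
  have hX2' := hle2 hX2
  -- stage 3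
  obtain ⟨V3, hV3, hle3, hb4⟩ : ∃ V, Reach 3 V ∧ V2 ≤ V ∧ b4 s p b1 b2 ∈ V :=
    ⟨_, hV2.step (V2.add_mem (V2.add_mem hb3 (C_mul_mem p hX2')) (C_mul_mem b1 hV2.X_mem))
      (V2.add_mem hb3 (C_mul_mem b2 hV2.X_mem)), le_sup_left,
      Submodule.mem_sup_right (Submodule.mem_span_singleton_self _)⟩
  have hX2'' := hle3 hX2'
  have hb3' := hle3 hb3
  have hXX : b4 s p b1 b2 + C al * b3 s + C be * (X * X) + C ga * X + C de ∈ V3 :=
    V3.add_mem (V3.add_mem (V3.add_mem (V3.add_mem hb4 (C_mul_mem _ hb3')) (C_mul_mem _ hX2''))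
      (C_mul_mem _ hV3.X_mem)) (hV3.C_mem _)
  have hD : C a * (b3 s + C b * (X * X) + C c * X) ∈ V3 :=
    C_mul_mem _ (V3.add_mem (V3.add_mem hb3' (C_mul_mem _ hX2'')) (C_mul_mem _ hV3.X_mem))
  have h4 := hV3.step (V3.add_mem hXX hD) (V3.sub_mem hXX hD)
  refine ⟨_, h4, C_mul_mem _ ?_⟩
  refine Submodule.add_mem _ (Submodule.add_mem _ (Submodule.add_mem _ (Submodule.add_mem _ ?_
    (C_mul_mem _ (Submodule.mem_sup_left hb3'))) (C_mul_mem _ (Submodule.mem_sup_left hX2'')))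
    (C_mul_mem _ h4.X_mem)) (h4.C_mem _)
  exact Submodule.mem_sup_right (Submodule.mem_span_singleton_self _)

/-- A monic polynomial of degree 16 divisible by `X ^ 10` is computable with four products as
soon as two real equations and some inequalities hold. -/
lemma block4 {p15 p14 p13 p12 p11 p10 x7 x6 x5 x4 x3 x2 x1 x0 s p q u b c k : ℝ}
    (h15 : 2 * x7 = p15) (h14 : 2 * x6 + x7 ^ 2 = p14)
    (h13 : 2 * x5 + 2 * x6 * x7 = p13)
    (h12 : 2 * x4 + 2 * x5 * x7 + x6 ^ 2 = p12)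
    (h11 : 2 * x3 + 2 * x4 * x7 + 2 * x5 * x6 = p11)
    (h10 : 2 * x2 + 2 * x3 * x7 + 2 * x4 * x6 + x5 ^ 2 = p10)
    (h9 : 2 * x1 + 2 * x2 * x7 + 2 * x3 * x6 + 2 * x4 * x5 = 0)
    (h8 : 2 * x0 + 2 * x1 * x7 + 2 * x2 * x6 + 2 * x3 * x5 + x4 ^ 2 = 0)
    (h7 : x0 * x7 + x1 * x6 + x2 * x5 + x3 * x4 = 0)
    (hs : x7 = 2 * s) (hp : p = x6 - s ^ 2) (hp0 : p ≠ 0) (hq : q = x5 - p * s)
    (hu : 0 < u)
    (hb : 2 * b = p + u * (2 * x0 * x6 + 2 * x1 * x5 + 2 * x2 * x4 + x3 ^ 2))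
    (hc : 2 * c = x5 + u * (2 * x0 * x5 + 2 * x1 * x4 + 2 * x2 * x3) - 2 * b * s)
    (hE : s * (x4 + u * (2 * x0 * x4 + 2 * x1 * x3 + x2 ^ 2) - b ^ 2 - 2 * c * s) =
      x3 + u * (2 * x0 * x3 + 2 * x1 * x2) - 2 * b * c) :
    PReach 4 (C k * (X ^ 10 * (X ^ 6 + C p15 * X ^ 5 + C p14 * X ^ 4 + C p13 * X ^ 3 +
      C p12 * X ^ 2 + C p11 * X + C p10))) := by
  set v : ℝ := 1 / u with hv
  have huv : u * v = 1 := by rw [hv]; field_simp
  have hv0 : 0 < v := by rw [hv]; positivity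
  set a : ℝ := Real.sqrt v with ha
  have ha2 : a ^ 2 = v := Real.sq_sqrt hv0.le
  set al : ℝ := x4 - q * s with hal
  set rr : ℝ := x3 - al * s with hrr
  set b2 : ℝ := rr / p with hb2
  have hb2p : p * b2 = rr := by rw [hb2]; field_simp
  set b1 : ℝ := q - b2 with hb1
  have key := preach4 s p b1 b2 al (x2 - b1 * b2) x1 (x0 + v / 2) a b c
    (-((2 * x0 * x4 + 2 * x1 * x3 + x2 ^ 2) + v * (x4 - b ^ 2 - 2 * c * s)))
    (-((2 * x0 * x2 + x1 ^ 2) + v * (x2 - c ^ 2)))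
    (-(2 * x0 * x1 + v * x1))
    (-(x0 ^ 2 + v * x0 + v ^ 2 / 4)) k
  have heq : (C k * (X ^ 10 * (X ^ 6 + C p15 * X ^ 5 + C p14 * X ^ 4 + C p13 * X ^ 3 +
      C p12 * X ^ 2 + C p11 * X + C p10)) : ℝ[X]) =
      P4 s p b1 b2 al (x2 - b1 * b2) x1 (x0 + v / 2) a b c
        (-((2 * x0 * x4 + 2 * x1 * x3 + x2 ^ 2) + v * (x4 - b ^ 2 - 2 * c * s)))
        (-((2 * x0 * x2 + x1 ^ 2) + v * (x2 - c ^ 2)))
        (-(2 * x0 * x1 + v * x1))
        (-(x0 ^ 2 + v * x0 + v ^ 2 / 4)) k := by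
    refine Polynomial.funext fun y => ?_
    have hX0 : (b4 s p b1 b2 + C al * b3 s + C (x2 - b1 * b2) * (X * X) + C x1 * X +
        C (x0 + v / 2)).eval y = y ^ 8 + x7 * y ^ 7 + x6 * y ^ 6 + x5 * y ^ 5 + x4 * y ^ 4 +
          x3 * y ^ 3 + x2 * y ^ 2 + x1 * y + x0 + v / 2 := by
      simp only [b4, b3, eval_add, eval_mul, eval_C, eval_X]
      have hx6 : x6 = p + s ^ 2 := by rw [hp]; ring
      have hx5 : x5 = q + p * s := by rw [hq]; ring
      have hx4 : x4 = al + q * s := by rw [hal]; ring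
      have hx3 : x3 = p * b2 + al * s := by rw [hb2p, hrr]; ring
      have hb1' : b1 = q - b2 := hb1
      rw [hx3, hs]
      clear_value b1 al
      rw [hb1', hx6, hx5, hx4]
      ring
    have hD : (C a * (b3 s + C b * (X * X) + C c * X)).eval y =
        a * (y ^ 4 + s * y ^ 3 + b * y ^ 2 + c * y) := by
      simp only [b3, eval_add, eval_mul, eval_C, eval_X]
      ring
    unfold P4
    rw [eval_mul (p := C k), eval_mul (p := C k), eval_add (q := C (-(x0 ^ 2 + v * x0 + v ^ 2 / 4))),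
      eval_add (q := C (-(2 * x0 * x1 + v * x1)) * X), eval_add, eval_add, eval_mul (p := _ + _),
      eval_add, eval_sub, hX0, hD]
    simp only [b3, eval_add, eval_mul, eval_C, eval_X, eval_pow]
    linear_combination (-k) * (y ^ 15 * h15 + y ^ 14 * h14 + y ^ 13 * h13 + y ^ 12 * h12 +
      y ^ 11 * h11 + y ^ 10 * h10 + y ^ 9 * h9 + y ^ 8 * h8 + 2 * y ^ 7 * h7 + v * y ^ 7 * hs +
      y ^ 6 * (-v * hb - v * hp - (2 * x0 * x6 + 2 * x1 * x5 + 2 * x2 * x4 + x3 ^ 2) * huv) +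
      y ^ 5 * (-v * hc - (2 * x0 * x5 + 2 * x1 * x4 + 2 * x2 * x3) * huv) +
      y ^ 3 * (-v * hE + (s * (2 * x0 * x4 + 2 * x1 * x3 + x2 ^ 2) -
        (2 * x0 * x3 + 2 * x1 * x2)) * huv)) +
      k * (y ^ 4 + s * y ^ 3 + b * y ^ 2 + c * y) ^ 2 * ha2
  rw [heq]
  exact key

end

end Pool.Agent.H38.Sgn
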