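import Pool.Agent.H38.Sgn.Basic

/-! Spaces of polynomials reachable with a given number of products. -/

namespace Pool.Agent.H38.Sgn

open Polynomial

/-- `Reach m V`: the space `V` is spanned by the values of a computation with `m` products. -/
inductive Reach : ℕ → Submodule ℝ ℝ[X] → Prop
  | base : Reach 0 (Submodule.span ℝ {1, X})
  | step {m : ℕ} {V : Submodule ℝ ℝ[X]} (h : Reach m V) {u v : ℝ[X]} (hu : u ∈ V) (hv : v ∈ V) :
      Reach (m + 1) (V ⊔ Submodule.span ℝ {u * v})

lemma mem_span_range_iff {B : ℕ → ℝ[X]} {n : ℕ} {p : ℝ[X]} :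
    p ∈ Submodule.span ℝ (B '' (Finset.range n : Set ℕ)) ↔
      ∃ c : ℕ → ℝ, p = ∑ j ∈ Finset.range n, C (c j) * B j := by
  rw [Submodule.mem_span_image_finset_iff_exists_fun']
  constructor
  · rintro ⟨c, hc⟩
    exact ⟨c, by rw [← hc]; simp [smul_eq_C_mul]⟩
  · rintro ⟨c, hc⟩
    exact ⟨c, by rw [hc]; simp [smul_eq_C_mul]⟩

lemma reach_seq {m : ℕ} {V : Submodule ℝ ℝ[X]} (h : Reach m V) :
    ∃ (B : ℕ → ℝ[X]) (α β : ℕ → ℕ → ℝ), B 0 = 1 ∧ B 1 = X ∧
    (∀ k, 1 ≤ k → k ≤ m →
      B (k + 1) = (∑ j ∈ Finset.range (k + 1), C (α k j) * B j) *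
        (∑ j ∈ Finset.range (k + 1), C (β k j) * B j)) ∧
    V = Submodule.span ℝ (B '' (Finset.range (m + 2) : Set ℕ)) := by
  induction h with
  | base =>
    refine ⟨fun k => if k = 0 then 1 else X, fun _ _ => 0, fun _ _ => 0, by simp, by simp, ?_, ?_⟩
    · intro k h1 h2; omega
    · congr 1
      ext p
      simp only [Set.mem_insert_iff, Set.mem_singleton_iff, Set.mem_image, Finset.coe_range,
        Set.mem_Iio]
      constructor
      · rintro (rfl | rfl)
        · exact ⟨0, by norm_num, by simp⟩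
        · exact ⟨1, by norm_num, by simp⟩
      · rintro ⟨k, hk, rfl⟩
        interval_cases k <;> simp
  | @step m V h u v hu hv ih =>
    obtain ⟨B, α, β, h0, h1, hk, hV⟩ := ih
    rw [hV, mem_span_range_iff] at hu hv
    obtain ⟨cu, hu⟩ := hu
    obtain ⟨cv, hv⟩ := hv
    have hB : ∀ j ∈ Finset.range (m + 2), Function.update B (m + 2) (u * v) j = B j := by
      intro j hj
      rw [Function.update_of_ne]
      have := Finset.mem_range.1 hj
      omega
    refine ⟨Function.update B (m + 2) (u * v), Function.update α (m + 1) cu,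
      Function.update β (m + 1) cv, ?_, ?_, ?_, ?_⟩
    · rw [hB 0 (by simp), h0]
    · rw [hB 1 (by simp), h1]
    · intro k hk1 hk2
      rcases Nat.lt_or_ge k (m + 1) with hlt | hge
      · rw [hB (k + 1) (Finset.mem_range.2 (by omega)), Function.update_of_ne (by omega),
          Function.update_of_ne (by omega), hk k hk1 (by omega)]
        congr 1
        · refine Finset.sum_congr rfl fun j hj => ?_
          rw [hB j (Finset.mem_range.2 (by have := Finset.mem_range.1 hj; omega))]
        · refine Finset.sum_congr rfl fun j hj => ?_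
          rw [hB j (Finset.mem_range.2 (by have := Finset.mem_range.1 hj; omega))]
      · have : k = m + 1 := by omega
        subst this
        rw [Function.update_self, Function.update_self, Function.update_self]
        conv_lhs => rw [hu, hv]
        congr 1
        · refine Finset.sum_congr rfl fun j hj => ?_
          rw [hB j hj]
        · refine Finset.sum_congr rfl fun j hj => ?_
          rw [hB j hj]
    · rw [hV, ← Submodule.span_union]
      congr 1
      ext p
      simp only [Set.mem_union, Set.mem_image, Finset.coe_range, Set.mem_Iio,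
        Set.mem_singleton_iff]
      constructor
      · rintro (⟨j, hj, rfl⟩ | rfl)
        · exact ⟨j, by omega, hB j (Finset.mem_range.2 hj)⟩
        · exact ⟨m + 2, by omega, Function.update_self ..⟩
      · rintro ⟨j, hj, rfl⟩
        rcases Nat.lt_or_ge j (m + 2) with hlt | hge
        · exact Or.inl ⟨j, hlt, (hB j (Finset.mem_range.2 hlt)).symm⟩
        · have : j = m + 2 := by omega
          subst this
          right
          exact Function.update_self ..

lemma Reach.prog {m : ℕ} {V : Submodule ℝ ℝ[X]} (h : Reach m V) {p : ℝ[X]} (hp : p ∈ V) :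
    Prog m p := by
  obtain ⟨B, α, β, h0, h1, hk, hV⟩ := reach_seq h
  rw [hV, mem_span_range_iff] at hp
  obtain ⟨γ, hγ⟩ := hp
  exact ⟨B, α, β, γ, h0, h1, hk, hγ⟩

lemma Reach.one_mem {m : ℕ} {V : Submodule ℝ ℝ[X]} (h : Reach m V) : (1 : ℝ[X]) ∈ V := by
  induction h with
  | base => exact Submodule.subset_span (by simp)
  | step h hu hv ih => exact Submodule.mem_sup_left ih

lemma Reach.X_mem {m : ℕ} {V : Submodule ℝ ℝ[X]} (h : Reach m V) : (X : ℝ[X]) ∈ V := by
  induction h with
  | base => exact Submodule.subset_span (by simp)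
  | step h hu hv ih => exact Submodule.mem_sup_left ih

lemma Reach.C_mem {m : ℕ} {V : Submodule ℝ ℝ[X]} (h : Reach m V) (c : ℝ) : C c ∈ V := by
  have := V.smul_mem c h.one_mem
  rwa [smul_eq_C_mul, mul_one] at this

lemma C_mul_mem {V : Submodule ℝ ℝ[X]} {p : ℝ[X]} (c : ℝ) (hp : p ∈ V) : C c * p ∈ V := by
  have := V.smul_mem c hp
  rwa [smul_eq_C_mul] at this

/-- `PReach m p`: `p` can be computed with `m` products. -/
def PReach (m : ℕ) (p : ℝ[X]) : Prop := ∃ V, Reach m V ∧ p ∈ V

lemma PReach.prog {m : ℕ} {p : ℝ[X]} (h : PReach m p) : Prog m p := by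
  obtain ⟨V, hV, hp⟩ := h
  exact hV.prog hp

lemma comp_reach {m : ℕ} {V : Submodule ℝ ℝ[X]} (hV : Reach m V) {p : ℝ[X]} (hp : p ∈ V)
    {n : ℕ} {W : Submodule ℝ ℝ[X]} (hW : Reach n W) :
    ∃ V', Reach (m + n) V' ∧ ∀ w ∈ W, w.comp p ∈ V' := by
  induction hW with
  | base =>
    refine ⟨V, hV, fun w hw => ?_⟩
    rw [Submodule.mem_span_pair] at hw
    obtain ⟨a, b, rfl⟩ := hw
    simp only [smul_eq_C_mul, add_comp, mul_comp, C_comp, X_comp, one_comp]
    exact V.add_mem (C_mul_mem _ hV.one_mem) (C_mul_mem _ hp)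
  | @step n W hW u v hu hv ih =>
    obtain ⟨V', hV', hc⟩ := ih
    refine ⟨_, hV'.step (hc u hu) (hc v hv), fun w hw => ?_⟩
    rw [Submodule.mem_sup] at hw
    obtain ⟨w1, hw1, w2, hw2, rfl⟩ := hw
    rw [Submodule.mem_span_singleton] at hw2
    obtain ⟨a, rfl⟩ := hw2
    rw [add_comp]
    refine Submodule.add_mem _ (Submodule.mem_sup_left (hc w1 hw1)) ?_
    refine Submodule.mem_sup_right ?_
    rw [smul_comp, mul_comp]
    exact Submodule.smul_mem _ _ (Submodule.mem_span_singleton_self _)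

lemma PReach.comp {m n : ℕ} {p q : ℝ[X]} (hp : PReach m p) (hq : PReach n q) :
    PReach (m + n) (q.comp p) := by
  obtain ⟨V, hV, hp⟩ := hp
  obtain ⟨W, hW, hq⟩ := hq
  obtain ⟨V', hV', hc⟩ := comp_reach hV hp hW
  exact ⟨V', hV', hc q hq⟩

lemma PReach.affine {m : ℕ} {p : ℝ[X]} (hp : PReach m p) (a b : ℝ) :
    PReach m (C a * p + C b) := by
  obtain ⟨V, hV, hp⟩ := hp
  exact ⟨V, hV, V.add_mem (C_mul_mem _ hp) (hV.C_mem _)⟩

lemma PReach.succ {m : ℕ} {p : ℝ[X]} (hp : PReach m p) : PReach (m + 1) p := by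
  obtain ⟨V, hV, hp⟩ := hp
  exact ⟨_, hV.step hV.one_mem hV.one_mem, Submodule.mem_sup_left hp⟩

lemma PReach.mono {m n : ℕ} (h : m ≤ n) {p : ℝ[X]} (hp : PReach m p) : PReach n p := by
  induction h with
  | refl => exact hp
  | step _ ih => exact ih.succ

lemma preach_X : PReach 0 X := ⟨_, Reach.base, Reach.base.X_mem⟩

lemma preach_linear (a b : ℝ) : PReach 0 (C a * X + C b) := preach_X.affine a b

end Pool.Agent.H38.Sgn
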